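import Mathlib

namespace Pool.Agent.TH391.Az

open Polynomial Finset

/-- summand of the binomial expansion of `((1+X)^2 - (1-X)^2)^k` -/
noncomputable def tm (k l : ℕ) : ℚ[X] :=
  C ((-1) ^ l * (k.choose l : ℚ)) * ((1 + X) ^ (2 * (k - l)) * (1 - X) ^ (2 * l))

theorem sum_tm (k : ℕ) : ∑ l ∈ range (k + 1), tm k l = C (4 ^ k) * X ^ k := by
  have h := add_pow (-(1 - X : ℚ[X]) ^ 2) ((1 + X) ^ 2) k
  have h2 : (-(1 - X : ℚ[X]) ^ 2 + (1 + X) ^ 2) ^ k = C (4 ^ k) * X ^ k := by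
    have : (-(1 - X : ℚ[X]) ^ 2 + (1 + X) ^ 2) = C 4 * X := by
      rw [show (C 4 : ℚ[X]) = 4 from rfl]; ring
    rw [this, mul_pow, ← C_pow]
  rw [← h2, h]
  refine Finset.sum_congr rfl fun l _ => ?_
  unfold tm
  rw [C_mul, C_pow, C_neg, C_1, neg_pow ((1 - X : ℚ[X]) ^ 2), ← pow_mul, ← pow_mul]
  rw [show (C (k.choose l : ℚ) : ℚ[X]) = (k.choose l : ℚ[X]) from by simp]
  ring

/-- lower part -/
noncomputable def hh (k L : ℕ) : ℚ[X] := ∑ l ∈ range (L + 1), tm k l

/-- upper part -/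
noncomputable def ww (k L : ℕ) : ℚ[X] := ∑ l ∈ Ico (L + 1) (k + 1), tm k l

theorem hh_add_ww (k L : ℕ) (h : L ≤ k) : hh k L + ww k L = C (4 ^ k) * X ^ k := by
  rw [← sum_tm]
  exact Finset.sum_range_add_sum_Ico _ (by omega)

theorem ode_term (a b : ℕ) :
    X * derivative ((1 + X) ^ (2 * a) * (1 - X) ^ (2 * b) : ℚ[X]) -
      C ((a : ℚ) + b) * ((1 + X) ^ (2 * a) * (1 - X) ^ (2 * b)) =
    (X ^ 2 - 1) * (C (a : ℚ) * ((1 + X) ^ (2 * (a - 1)) * (1 - X) ^ (2 * b)) +
      C (b : ℚ) * ((1 + X) ^ (2 * a) * (1 - X) ^ (2 * (b - 1)))) := by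
  rcases a with _ | a <;> rcases b with _ | b
  · simp
  · simp only [derivative_mul, derivative_pow, derivative_add, derivative_sub, derivative_one,
      derivative_X, mul_zero, pow_zero, Nat.add_sub_cancel, Nat.cast_zero, C_0, zero_mul,
      show 2 * (b + 1) - 1 = 2 * b + 1 by omega, show 2 * (b + 1) = 2 * b + 2 by omega, C_add]
    push_cast
    simp only [map_add, map_mul, map_one, map_natCast, map_ofNat]
    ring
  · simp only [derivative_mul, derivative_pow, derivative_add, derivative_sub, derivative_one,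
      derivative_X, mul_zero, pow_zero, Nat.add_sub_cancel, Nat.cast_zero, C_0, zero_mul,
      show 2 * (a + 1) - 1 = 2 * a + 1 by omega, show 2 * (a + 1) = 2 * a + 2 by omega, C_add]
    push_cast
    simp only [map_add, map_mul, map_one, map_natCast, map_ofNat]
    ring
  · simp only [derivative_mul, derivative_pow, derivative_add, derivative_sub, derivative_one,
      derivative_X, Nat.add_sub_cancel,
      show 2 * (b + 1) - 1 = 2 * b + 1 by omega, show 2 * (b + 1) = 2 * b + 2 by omega,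
      show 2 * (a + 1) - 1 = 2 * a + 1 by omega, show 2 * (a + 1) = 2 * a + 2 by omega, C_add]
    push_cast
    simp only [map_add, map_mul, map_one, map_natCast, map_ofNat]
    ring

/-- the differential equation of the truncated sum -/
theorem ode (k L : ℕ) (hL : L ≤ k) :
    X * derivative (hh k L) - C (k : ℚ) * hh k L =
      C ((-1) ^ L * ((k.choose L : ℚ) * ((k - L : ℕ) : ℚ))) *
        ((X ^ 2 - 1) * ((1 + X) ^ (2 * (k - L - 1)) * (1 - X) ^ (2 * L))) := by
  have hterm : ∀ l ≤ k, X * derivative (tm k l) - C (k : ℚ) * tm k l =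
      C ((-1) ^ l * ((k.choose l : ℚ) * ((k - l : ℕ) : ℚ))) *
        ((X ^ 2 - 1) * ((1 + X) ^ (2 * (k - l - 1)) * (1 - X) ^ (2 * l))) +
      C ((-1) ^ l * ((k.choose l : ℚ) * (l : ℚ))) *
        ((X ^ 2 - 1) * ((1 + X) ^ (2 * (k - l)) * (1 - X) ^ (2 * (l - 1)))) := by
    intro l hl
    have h := ode_term (k - l) l
    have hk : ((k - l : ℕ) : ℚ) + l = k := by
      rw [← Nat.cast_add, Nat.sub_add_cancel hl]
    rw [hk] at h
    unfold tm
    rw [derivative_C_mul]
    have e1 : X * (C ((-1) ^ l * (k.choose l : ℚ)) *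
        derivative ((1 + X) ^ (2 * (k - l)) * (1 - X) ^ (2 * l) : ℚ[X])) -
        C (k : ℚ) * (C ((-1) ^ l * (k.choose l : ℚ)) *
          ((1 + X) ^ (2 * (k - l)) * (1 - X) ^ (2 * l))) =
        C ((-1) ^ l * (k.choose l : ℚ)) *
          (X * derivative ((1 + X) ^ (2 * (k - l)) * (1 - X) ^ (2 * l) : ℚ[X]) -
            C (k : ℚ) * ((1 + X) ^ (2 * (k - l)) * (1 - X) ^ (2 * l))) := by ring
    rw [e1, h]
    simp only [C_mul]
    ring
  induction L with
  | zero =>
    unfold hh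
    rw [Finset.sum_range_one, hterm 0 (by omega)]
    simp
  | succ L ih =>
    have ih' := ih (by omega)
    have e : hh k (L + 1) = hh k L + tm k (L + 1) := by
      unfold hh; rw [Finset.sum_range_succ]
    rw [e, derivative_add]
    have e2 : X * (derivative (hh k L) + derivative (tm k (L + 1))) -
        C (k : ℚ) * (hh k L + tm k (L + 1)) =
        (X * derivative (hh k L) - C (k : ℚ) * hh k L) +
        (X * derivative (tm k (L + 1)) - C (k : ℚ) * tm k (L + 1)) := by ring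
    rw [e2, ih', hterm (L + 1) hL]
    have hc : ((k.choose (L + 1) : ℚ) * ((L + 1 : ℕ) : ℚ)) =
        (k.choose L : ℚ) * ((k - L : ℕ) : ℚ) := by
      exact_mod_cast Nat.choose_succ_right_eq k L
    rw [hc, show L + 1 - 1 = L from rfl, show k - (L + 1) = k - L - 1 from by omega,
      show ((-1 : ℚ) ^ (L + 1)) = -((-1) ^ L) from by ring]
    simp only [neg_mul, C_neg, C_mul]
    ring

/-- coefficients of `(1 - X^2)^N` -/
theorem coeff_sq (N : ℕ) : (∀ a, ((1 - X ^ 2 : ℚ[X]) ^ N).coeff (2 * a) =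
    (-1) ^ a * (N.choose a : ℚ)) ∧ ∀ a, ((1 - X ^ 2 : ℚ[X]) ^ N).coeff (2 * a + 1) = 0 := by
  induction N with
  | zero =>
    constructor
    · intro a
      rcases a with _ | a
      · simp
      · simp [coeff_one]
    · intro a
      simp [coeff_one]
  | succ N ih =>
    obtain ⟨h1, h2⟩ := ih
    have e : ((1 - X ^ 2 : ℚ[X]) ^ (N + 1)) = (1 - X ^ 2) ^ N - X ^ 2 * (1 - X ^ 2) ^ N := by ring
    constructor
    · intro a
      rw [e, coeff_sub, h1]
      rcases a with _ | a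
      · simp
      · rw [show 2 * (a + 1) = 2 * a + 2 by ring, coeff_X_pow_mul, h1, Nat.choose_succ_succ]
        push_cast
        ring
    · intro a
      rw [e, coeff_sub, h2]
      rcases a with _ | a
      · rw [mul_comm, coeff_mul_X_pow']
        simp
      · rw [show 2 * (a + 1) + 1 = (2 * a + 1) + 2 by ring, coeff_X_pow_mul, h2]
        ring

theorem coeff_X_mul_derivative (f : ℚ[X]) (i : ℕ) : (X * derivative f).coeff i = i * f.coeff i := by
  rcases i with _ | i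
  · simp
  · rw [coeff_X_mul, coeff_derivative]
    push_cast
    ring

/-- `f` is (anti)palindromic of degree `N` -/
def Anti (N : ℕ) (ε : ℚ) (f : ℚ[X]) : Prop :=
  (∀ i j, i + j = N → f.coeff i = ε * f.coeff j) ∧ ∀ i, N < i → f.coeff i = 0

theorem Anti.plus {N : ℕ} {ε : ℚ} {f : ℚ[X]} (h : Anti N ε f) : Anti (N + 1) ε ((1 + X) * f) := by
  obtain ⟨h1, h2⟩ := h
  constructor
  · intro i j hij
    rw [add_mul, one_mul, coeff_add, coeff_add]
    rcases i with _ | i <;> rcases j with _ | j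
    · omega
    · rw [coeff_X_mul, coeff_X_mul_zero, h2 (j + 1) (by omega), h1 0 j (by omega)]
      ring
    · rw [coeff_X_mul, coeff_X_mul_zero, h2 (i + 1) (by omega), h1 i 0 (by omega)]
      ring
    · rw [coeff_X_mul, coeff_X_mul, h1 (i + 1) j (by omega), h1 i (j + 1) (by omega)]
      ring
  · intro i hi
    rw [add_mul, one_mul, coeff_add]
    rcases i with _ | i
    · omega
    · rw [coeff_X_mul, h2 (i + 1) (by omega), h2 i (by omega), add_zero]

theorem Anti.minus {N : ℕ} {ε : ℚ} {f : ℚ[X]} (h : Anti N ε f) :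
    Anti (N + 1) (-ε) ((1 - X) * f) := by
  obtain ⟨h1, h2⟩ := h
  constructor
  · intro i j hij
    rw [sub_mul, one_mul, coeff_sub, coeff_sub]
    rcases i with _ | i <;> rcases j with _ | j
    · omega
    · rw [coeff_X_mul, coeff_X_mul_zero, h2 (j + 1) (by omega), h1 0 j (by omega)]
      ring
    · rw [coeff_X_mul, coeff_X_mul_zero, h2 (i + 1) (by omega), h1 i 0 (by omega)]
      ring
    · rw [coeff_X_mul, coeff_X_mul, h1 (i + 1) j (by omega), h1 i (j + 1) (by omega)]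
      ring
  · intro i hi
    rw [sub_mul, one_mul, coeff_sub]
    rcases i with _ | i
    · omega
    · rw [coeff_X_mul, h2 (i + 1) (by omega), h2 i (by omega), sub_zero]

theorem anti_pp (a b : ℕ) : Anti (a + b) ((-1) ^ b) ((1 + X) ^ a * (1 - X) ^ b) := by
  induction a with
  | zero =>
    rw [pow_zero, one_mul, Nat.zero_add]
    induction b with
    | zero =>
      refine ⟨?_, ?_⟩
      · intro i j hij
        have hi : i = 0 := by omega
        have hj : j = 0 := by omega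
        subst hi hj
        simp
      · intro i hi
        rw [pow_zero, coeff_one, if_neg (by omega)]
    | succ b ih =>
      have := ih.minus
      rw [pow_succ' (1 - X : ℚ[X]) b, pow_succ (-1 : ℚ) b, mul_neg_one]
      exact this
  | succ a ih =>
    have := ih.plus
    rw [show a + 1 + b = a + b + 1 by ring, pow_succ', mul_assoc]
    exact this

theorem Anti.smul {N : ℕ} {ε : ℚ} {f : ℚ[X]} (h : Anti N ε f) (c : ℚ) : Anti N ε (C c * f) := by
  obtain ⟨h1, h2⟩ := h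
  constructor
  · intro i j hij
    rw [coeff_C_mul, coeff_C_mul, h1 i j hij]; ring
  · intro i hi
    rw [coeff_C_mul, h2 i hi, mul_zero]

theorem Anti.sum {N : ℕ} {ε : ℚ} (s : Finset ℕ) (f : ℕ → ℚ[X]) (h : ∀ l ∈ s, Anti N ε (f l)) :
    Anti N ε (∑ l ∈ s, f l) := by
  constructor
  · intro i j hij
    rw [finsetSum_coeff, finsetSum_coeff, Finset.mul_sum]
    exact Finset.sum_congr rfl fun l hl => (h l hl).1 i j hij
  · intro i hi
    rw [finsetSum_coeff]
    exact Finset.sum_eq_zero fun l hl => (h l hl).2 i hi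

/-- the quotient of the upper part by `1 - X` -/
noncomputable def ph (k L : ℕ) : ℚ[X] :=
  ∑ l ∈ Ico (L + 1) (k + 1), C ((-1) ^ l * (k.choose l : ℚ)) *
    ((1 + X) ^ (2 * (k - l)) * (1 - X) ^ (2 * l - 1))

theorem ph_mul (k L : ℕ) : (1 - X) * ph k L = ww k L := by
  unfold ph ww tm
  rw [Finset.mul_sum]
  refine Finset.sum_congr rfl fun l hl => ?_
  rw [Finset.mem_Ico] at hl
  have : (1 - X : ℚ[X]) ^ (2 * l) = (1 - X) * (1 - X) ^ (2 * l - 1) := by
    rw [← pow_succ', show 2 * l - 1 + 1 = 2 * l by omega]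
  rw [this]
  ring

theorem ph_anti (k L : ℕ) : Anti (2 * k - 1) (-1) (ph k L) := by
  refine Anti.sum _ _ fun l hl => ?_
  rw [Finset.mem_Ico] at hl
  refine Anti.smul ?_ _
  have := anti_pp (2 * (k - l)) (2 * l - 1)
  rw [show 2 * (k - l) + (2 * l - 1) = 2 * k - 1 by omega] at this
  rw [Odd.neg_one_pow (Nat.odd_iff.mpr (by omega))] at this
  exact this

theorem hh_anti (k L : ℕ) (hL : L ≤ k) : Anti (2 * k) 1 (hh k L) := by
  refine Anti.sum _ _ fun l hl => ?_
  rw [Finset.mem_range] at hl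
  refine Anti.smul ?_ _
  have := anti_pp (2 * (k - l)) (2 * l)
  rw [show 2 * (k - l) + (2 * l) = 2 * k by omega] at this
  rw [Even.neg_one_pow (by simp)] at this
  exact this

/-- reversing the sign of the variable -/
theorem coeff_neg_pp (a b : ℕ) : ∀ i, ((1 - X : ℚ[X]) ^ a * (1 + X) ^ b).coeff i =
    (-1) ^ i * ((1 + X : ℚ[X]) ^ a * (1 - X) ^ b).coeff i := by
  intro i
  have h : ((1 - X : ℚ[X]) ^ a * (1 + X) ^ b) =
      ((1 + X : ℚ[X]) ^ a * (1 - X) ^ b).comp (C (-1) * X) := by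
    simp only [mul_comp, pow_comp, sub_comp, add_comp, one_comp, X_comp, C_neg, C_1]
    ring
  rw [h, comp_C_mul_X_coeff, mul_comm]

theorem tm_symm (k l : ℕ) (hl : l ≤ k) : (tm k (k - l)).coeff k = (tm k l).coeff k := by
  unfold tm
  rw [coeff_C_mul, coeff_C_mul, show k - (k - l) = l by omega, Nat.choose_symm hl,
    mul_comm ((1 + X : ℚ[X]) ^ (2 * l)), coeff_neg_pp]
  have h : (-1 : ℚ) ^ (k - l) * (-1) ^ k = (-1) ^ l := by
    rw [← pow_add]
    rw [neg_one_pow_eq_pow_mod_two, neg_one_pow_eq_pow_mod_two (n := l)]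
    congr 1
    omega
  rw [← h]
  ring

theorem hh_mid_odd (m : ℕ) : 2 * (hh (2 * m + 1) m).coeff (2 * m + 1) = 4 ^ (2 * m + 1) := by
  have h1 : (hh (2 * m + 1) m + ww (2 * m + 1) m).coeff (2 * m + 1) = 4 ^ (2 * m + 1) := by
    rw [hh_add_ww _ _ (by omega), coeff_C_mul, coeff_X_pow_self, mul_one]
  have h2 : (ww (2 * m + 1) m).coeff (2 * m + 1) = (hh (2 * m + 1) m).coeff (2 * m + 1) := by
    unfold ww hh
    rw [finsetSum_coeff, finsetSum_coeff, Finset.sum_Ico_eq_sum_range,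
      show 2 * m + 1 + 1 - (m + 1) = m + 1 by omega,
      ← Finset.sum_range_reflect (fun l => (tm (2 * m + 1) l).coeff (2 * m + 1)) (m + 1)]
    refine Finset.sum_congr rfl fun l hl => ?_
    rw [Finset.mem_range] at hl
    rw [← tm_symm (2 * m + 1) (m + 1 - 1 - l) (by omega),
      show 2 * m + 1 - (m + 1 - 1 - l) = m + 1 + l by omega]
  rw [coeff_add, h2] at h1
  linarith

theorem tm_mid (m : ℕ) : (tm (2 * m) m).coeff (2 * m) = ((2 * m).choose m : ℚ) ^ 2 := by
  unfold tm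
  rw [coeff_C_mul, show 2 * m - m = m by omega, ← mul_pow,
    show ((1 + X) * (1 - X) : ℚ[X]) = 1 - X ^ 2 by ring, (coeff_sq (2 * m)).1]
  have h : (-1 : ℚ) ^ m * (-1) ^ m = 1 := by rw [← mul_pow]; norm_num
  linear_combination ((2 * m).choose m : ℚ) ^ 2 * h

theorem hh_mid_even (m : ℕ) :
    2 * (hh (2 * m) m).coeff (2 * m) = 4 ^ (2 * m) + ((2 * m).choose m : ℚ) ^ 2 := by
  have h1 : (hh (2 * m) m + ww (2 * m) m).coeff (2 * m) = 4 ^ (2 * m) := by
    rw [hh_add_ww _ _ (by omega), coeff_C_mul, coeff_X_pow_self, mul_one]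
  have h2 : (ww (2 * m) m).coeff (2 * m) + ((2 * m).choose m : ℚ) ^ 2 =
      (hh (2 * m) m).coeff (2 * m) := by
    unfold ww hh
    rw [finsetSum_coeff, finsetSum_coeff, Finset.sum_Ico_eq_sum_range,
      show 2 * m + 1 - (m + 1) = m by omega, Finset.sum_range_succ, tm_mid]
    congr 1
    rw [← Finset.sum_range_reflect (fun l => (tm (2 * m) l).coeff (2 * m)) m]
    refine Finset.sum_congr rfl fun l hl => ?_
    rw [Finset.mem_range] at hl
    rw [← tm_symm (2 * m) (m - 1 - l) (by omega),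
      show 2 * m - (m - 1 - l) = m + 1 + l by omega]
  rw [coeff_add] at h1
  linarith

theorem rhs_odd (m : ℕ) : ((X ^ 2 - 1) * ((1 + X) ^ (2 * (2 * m + 1 - m - 1)) *
    (1 - X) ^ (2 * m)) : ℚ[X]) = -((1 - X ^ 2) ^ (2 * m + 1)) := by
  rw [show 2 * m + 1 - m - 1 = m by omega, ← mul_pow,
    show ((1 + X) * (1 - X) : ℚ[X]) = 1 - X ^ 2 by ring]
  ring

theorem rhs_even (m : ℕ) : ((X ^ 2 - 1) * ((1 + X) ^ (2 * (2 * (m + 1) - (m + 1) - 1)) *
    (1 - X) ^ (2 * (m + 1))) : ℚ[X]) = -((1 - X ^ 2) ^ (2 * m + 1)) +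
      C 2 * (X * (1 - X ^ 2) ^ (2 * m + 1)) - X ^ 2 * (1 - X ^ 2) ^ (2 * m + 1) := by
  rw [show 2 * (m + 1) - (m + 1) - 1 = m by omega, show 2 * (m + 1) = 2 * m + 2 by ring, pow_add,
    ← mul_assoc ((1 + X : ℚ[X]) ^ (2 * m)), ← mul_pow,
    show ((1 + X) * (1 - X) : ℚ[X]) = 1 - X ^ 2 by ring, show (C 2 : ℚ[X]) = 2 from rfl]
  ring

theorem ode_coeff (k L i : ℕ) (hL : L ≤ k) :
    ((i : ℚ) - k) * (hh k L).coeff i = (-1) ^ L * ((k.choose L : ℚ) * ((k - L : ℕ) : ℚ)) *
      ((X ^ 2 - 1) * ((1 + X) ^ (2 * (k - L - 1)) * (1 - X) ^ (2 * L)) : ℚ[X]).coeff i := by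
  have h := congrArg (fun p => p.coeff i) (ode k L hL)
  simp only [coeff_sub, coeff_C_mul, coeff_X_mul_derivative] at h
  rw [← h]
  ring

theorem hh_prev_odd (m : ℕ) : (hh (2 * m + 1) m).coeff (2 * m) =
    (m + 1) * ((2 * m + 1).choose m : ℚ) ^ 2 := by
  have h := ode_coeff (2 * m + 1) m (2 * m) (by omega)
  rw [rhs_odd, coeff_neg, (coeff_sq _).1, show 2 * m + 1 - m = m + 1 by omega] at h
  have h1 : (-1 : ℚ) ^ m * (-1) ^ m = 1 := by rw [← mul_pow]; norm_num
  push_cast at h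
  linear_combination (-1 : ℚ) * h + ((2 * m + 1).choose m : ℚ) ^ 2 * (m + 1) * h1

theorem hh_top_odd (m : ℕ) : (hh (2 * m + 1) m).coeff (2 * (2 * m + 1)) =
    (-1) ^ m * ((2 * m).choose m : ℚ) := by
  have h := ode_coeff (2 * m + 1) m (2 * (2 * m + 1)) (by omega)
  rw [rhs_odd, coeff_neg, (coeff_sq _).1, show 2 * m + 1 - m = m + 1 by omega, Nat.choose_self,
    show ((-1 : ℚ) ^ (2 * m + 1)) = -1 from Odd.neg_one_pow ⟨m, rfl⟩] at h
  have h2 : ((2 * m + 1).choose m : ℚ) * ((m + 1 : ℕ) : ℚ) =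
      (2 * m + 1) * ((2 * m).choose m : ℚ) := by
    have e := Nat.add_one_mul_choose_eq (2 * m) m
    have e2 : (2 * m + 1).choose m = (2 * m + 1).choose (m + 1) := by
      rw [← Nat.choose_symm (by omega : m + 1 ≤ 2 * m + 1)]
      congr 1
      omega
    rw [e2]
    have e3 : (((2 * m + 1) * (2 * m).choose m : ℕ) : ℚ) =
      (((2 * m + 1).choose (m + 1) * (m + 1) : ℕ) : ℚ) := by exact_mod_cast e
    push_cast at e3 ⊢
    linarith
  rw [h2] at h
  have h3 : ((2 * m + 1 : ℕ) : ℚ) ≠ 0 := by positivity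
  apply mul_left_cancel₀ h3
  push_cast at h ⊢
  linear_combination h

theorem hh_prev_even (m : ℕ) : (hh (2 * (m + 1)) (m + 1)).coeff (2 * m + 1) =
    (m + 1) * ((2 * (m + 1)).choose (m + 1) : ℚ) ^ 2 := by
  have h := ode_coeff (2 * (m + 1)) (m + 1) (2 * m + 1) (by omega)
  have h2 : (X ^ 2 * (1 - X ^ 2) ^ (2 * m + 1) : ℚ[X]).coeff (2 * m + 1) = 0 := by
    rcases m with _ | m
    · rw [mul_comm, coeff_mul_X_pow']; simp
    · rw [show 2 * (m + 1) + 1 = (2 * m + 1) + 2 by ring, coeff_X_pow_mul,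
        show (2 * m + 1 + 2) = 2 * (m + 1) + 1 by ring, (coeff_sq _).2]
  rw [rhs_even, coeff_sub, coeff_add, coeff_neg, (coeff_sq _).2, coeff_C_mul, coeff_X_mul,
    (coeff_sq _).1, h2, show 2 * (m + 1) - (m + 1) = m + 1 by omega] at h
  have h1 : (-1 : ℚ) ^ m * (-1) ^ m = 1 := by rw [← mul_pow]; norm_num
  have h3 : ((2 * (m + 1)).choose (m + 1) : ℚ) = 2 * ((2 * m + 1).choose m : ℚ) := by
    rw [show 2 * (m + 1) = 2 * m + 1 + 1 by ring, Nat.choose_succ_succ]
    have : (2 * m + 1).choose m.succ = (2 * m + 1).choose m := by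
      rw [← Nat.choose_symm (by omega : m ≤ 2 * m + 1)]
      congr 1
      omega
    rw [this]
    push_cast
    ring
  rw [h3] at h ⊢
  push_cast at h
  linear_combination (-1 : ℚ) * h + 4 * ((2 * m + 1).choose m : ℚ) ^ 2 * (m + 1) * h1

theorem hh_top_even (m : ℕ) : (hh (2 * (m + 1)) (m + 1)).coeff (2 * (2 * (m + 1))) =
    (-1) ^ (m + 1) * ((2 * m + 1).choose m : ℚ) := by
  have h := ode_coeff (2 * (m + 1)) (m + 1) (2 * (2 * (m + 1))) (by omega)
  have h0 : ((1 - X ^ 2) ^ (2 * m + 1) : ℚ[X]).coeff (2 * (2 * (m + 1))) = 0 := by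
    rw [(coeff_sq _).1, Nat.choose_eq_zero_of_lt (by omega)]
    simp
  have h1 : (X * (1 - X ^ 2) ^ (2 * m + 1) : ℚ[X]).coeff (2 * (2 * (m + 1))) = 0 := by
    rw [show 2 * (2 * (m + 1)) = (2 * (2 * m + 1) + 1) + 1 by ring, coeff_X_mul, (coeff_sq _).2]
  have h2 : (X ^ 2 * (1 - X ^ 2) ^ (2 * m + 1) : ℚ[X]).coeff (2 * (2 * (m + 1))) = -1 := by
    rw [show 2 * (2 * (m + 1)) = 2 * (2 * m + 1) + 2 by ring, coeff_X_pow_mul, (coeff_sq _).1,
      Nat.choose_self, show ((-1 : ℚ) ^ (2 * m + 1)) = -1 from Odd.neg_one_pow ⟨m, rfl⟩]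
    simp
  rw [rhs_even, coeff_sub, coeff_add, coeff_neg, coeff_C_mul, h0, h1, h2,
    show 2 * (m + 1) - (m + 1) = m + 1 by omega] at h
  have h3 : ((2 * (m + 1)).choose (m + 1) : ℚ) = 2 * ((2 * m + 1).choose m : ℚ) := by
    rw [show 2 * (m + 1) = 2 * m + 1 + 1 by ring, Nat.choose_succ_succ]
    have : (2 * m + 1).choose m.succ = (2 * m + 1).choose m := by
      rw [← Nat.choose_symm (by omega : m ≤ 2 * m + 1)]
      congr 1
      omega
    rw [this]
    push_cast
    ring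
  rw [h3] at h
  have h4 : ((2 * (m + 1) : ℕ) : ℚ) ≠ 0 := by positivity
  apply mul_left_cancel₀ h4
  push_cast at h ⊢
  linear_combination h

end Pool.Agent.TH391.Az
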