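import Pool.Agent.TH391.Az.Region
import Pool.Agent.TH391.Az.Coef

namespace Pool.Agent.TH391.Az

open Finset Polynomial Pool.Agent.Helper848 Pool.Agent.Helper848.AztecDet

theorem numTilings_reg (N : ℕ) (p0 ee : E (N + 1)) (q0 oe : O (N + 1))
    (h0 : (p0.1 : ℕ) = q0.1 + 1) (h1 : (q0.2 : ℕ) = p0.2 + 2)
    (hoe : (oe.1 : ℕ) = q0.1 ∧ (oe.2 : ℕ) = p0.2 + 1)
    (hee : (ee.1 : ℕ) = p0.1 ∧ (ee.2 : ℕ) = p0.2 + 1)
    (H1 H2 : E (N + 1) → ℚ)
    (hH1 : ∀ o, ∑ x, K0 (N + 1) o x * H1 x = if o = q0 then 1 else 0)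
    (hH2 : ∀ o, ∑ x, K0 (N + 1) o x * H2 x = if o = oe then 1 else 0) :
    (numTilings (reg (N + 1) p0 q0) : ℚ) = 2 ^ ((N + 1) * (N + 2) / 2) *
      |H1 p0 * (1 - 2 * H2 ee) + 2 * (H2 p0 * H1 ee)| := by
  classical
  let e0 : E (N + 1) ≃ O (N + 1) := Equiv.prodComm _ _
  let e1 : E (N + 1) ≃ O (N + 1) := e0.trans (Equiv.swap (e0 p0) q0)
  have he1 : e1 p0 = q0 := by simp [e1]
  let φ : {x : E (N + 1) // x ≠ p0} ≃ {o : O (N + 1) // o ≠ q0} :=
    e1.subtypeEquiv (fun a => by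
      rw [← he1]
      exact (not_congr e1.injective.eq_iff).symm)
  let M : Matrix {x : E (N + 1) // x ≠ p0} {x : E (N + 1) // x ≠ p0} ℤ :=
    Matrix.of fun i j => if ((φ i : O (N + 1)) = oe ∧ (j : E (N + 1)) = ee) then -1
      else Kz (N + 1) (φ i) j
  have hcount : numTilings (reg (N + 1) p0 q0) = M.det.natAbs := by
    refine numTilings_eq ((N + 1 : ℕ) : ℤ) (reg (N + 1) p0 q0) (fun j => cP (N + 1) j.1)
      (fun i => cQ (N + 1) (φ i).1) ?_ ?_ ?_ ?_ (fun i => gs (N + 1) p0.1 (φ i).1.1)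
      (fun j => gs (N + 1) p0.1 j.1.1) M ?_
    · intro a b hab
      exact Subtype.ext (cP_inj _ hab)
    · intro a b hab
      exact φ.injective (Subtype.ext (cQ_inj _ hab))
    · intro p
      unfold reg
      rw [Finset.mem_erase, Finset.mem_erase]
      constructor
      · rintro ⟨⟨x, hx⟩, rfl⟩
        have := (cP_ex (N + 1) _).mp ⟨x, rfl⟩
        exact ⟨⟨fun hc => hx (cP_inj _ hc), cP_ne_cQ _ _ _, this.1⟩, this.2⟩
      · rintro ⟨⟨ha, hb, hc⟩, hd⟩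
        obtain ⟨x, hx⟩ := (cP_ex (N + 1) p).mpr ⟨hc, hd⟩
        exact ⟨⟨x, fun hx2 => ha (by rw [← hx, hx2])⟩, hx⟩
    · intro p
      unfold reg
      rw [Finset.mem_erase, Finset.mem_erase]
      constructor
      · rintro ⟨i, rfl⟩
        have := (cQ_ex (N + 1) _).mp ⟨(φ i).1, rfl⟩
        exact ⟨⟨fun hc => cP_ne_cQ _ _ _ hc.symm, fun hc => (φ i).2 (cQ_inj _ hc), this.1⟩, this.2⟩
      · rintro ⟨⟨ha, hb, hc⟩, hd⟩
        obtain ⟨x, hx⟩ := (cQ_ex (N + 1) p).mpr ⟨hc, hd⟩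
        refine ⟨φ.symm ⟨x, fun hx2 => hb (by rw [← hx, hx2])⟩, ?_⟩
        simp only [Equiv.apply_symm_apply]
        exact hx
    · intro i j
      have hk := kast_reg (N + 1) p0 j.1 (φ i).1 q0 h0 h1 j.2 (φ i).2
      rw [← hk]
      simp only [M, Matrix.of_apply]
      have hiff : ((φ i : O (N + 1)) = oe ∧ (j : E (N + 1)) = ee) ↔
          ((((φ i).1.1 : ℕ) = q0.1 ∧ ((φ i).1.2 : ℕ) = p0.2 + 1) ∧
            ((j.1.1 : ℕ) = p0.1 ∧ (j.1.2 : ℕ) = p0.2 + 1)) := by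
        rw [← hoe.1, ← hoe.2, ← hee.1]
        constructor
        · rintro ⟨ha, hb⟩
          rw [ha, hb]
          exact ⟨⟨rfl, rfl⟩, rfl, by rw [hee.2, hoe.2]⟩
        · rintro ⟨⟨ha, hb⟩, hc, hd⟩
          refine ⟨Prod.ext (Fin.ext ha) (Fin.ext hb), Prod.ext (Fin.ext hc) (Fin.ext ?_)⟩
          rw [hd, hee.2, hoe.2]
      simp only [hiff]
  have hne : ee ≠ p0 := by
    intro hc
    rw [hc] at hee
    omega
  obtain ⟨e, he⟩ := abs_det_minor (K0 (N + 1)) H1 H2 q0 oe p0 ee hne hH1 hH2 (by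
    unfold K0
    rw [Matrix.of_apply, if_pos (by omega), if_pos (by omega), if_neg (by omega),
      if_neg (by omega)]
    norm_num) φ
  rw [abs_det_K0] at he
  rw [← he, hcount, Nat.cast_natAbs, Int.cast_abs]
  congr 1
  rw [show ((M.det : ℤ) : ℚ) = (Int.castRingHom ℚ) M.det from rfl, RingHom.map_det]
  congr 1
  ext i j
  simp only [RingHom.mapMatrix_apply, Matrix.map_apply, M, Matrix.of_apply]
  split_ifs with h
  · simp
  · exact Kz_cast _ _ _

/-- the column polynomials -/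
noncomputable def col (n t0 : ℕ) (r r' : ℚ[X]) (s : ℕ) : ℚ[X] :=
  if s ≤ t0 then C ((-1) ^ (t0 - s)) * ((1 + X) ^ s * (1 - X) ^ (t0 - s) * r)
  else C ((-1) ^ (s - t0 - 1)) * ((1 + X) ^ (s - t0 - 1) * (1 - X) ^ (n - s) * r')

theorem natDegree_pp (a b : ℕ) : ((1 + X) ^ a * (1 - X) ^ b : ℚ[X]).natDegree ≤ a + b := by
  rw [natDegree_le_iff_coeff_eq_zero]
  intro M hM
  exact coeff_pp_eq_zero hM

theorem col_top (n t0 : ℕ) (r r' : ℚ[X]) (s : ℕ) (ht : t0 < n) (hs : s ≤ n)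
    (hr : r.natDegree + t0 < n) (hr' : r'.natDegree ≤ t0) : (col n t0 r r' s).coeff n = 0 := by
  unfold col
  split_ifs with h
  · rw [coeff_C_mul, coeff_eq_zero_of_natDegree_lt, mul_zero]
    refine lt_of_le_of_lt (natDegree_mul_le.trans (Nat.add_le_add_right (natDegree_pp _ _) _)) ?_
    omega
  · rw [coeff_C_mul, coeff_eq_zero_of_natDegree_lt, mul_zero]
    refine lt_of_le_of_lt (natDegree_mul_le.trans (Nat.add_le_add_right (natDegree_pp _ _) _)) ?_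
    omega

theorem col_rec (n t0 j : ℕ) (r r' : ℚ[X]) (t : ℕ) (ht0 : t0 < n) (ht : t < n)
    (h : (1 + X) ^ (t0 + 1) * r + (1 - X) ^ (n - t0) * r' = X ^ j) :
    (1 - X) * col n t0 r r' (t + 1) + (1 + X) * col n t0 r r' t = if t = t0 then X ^ j else 0 := by
  rcases lt_trichotomy t t0 with h1 | h1 | h1
  · rw [if_neg h1.ne]
    unfold col
    rw [if_pos (by omega : t + 1 ≤ t0), if_pos (by omega : t ≤ t0),
      show t0 - t = (t0 - (t + 1)) + 1 by omega, pow_succ (-1 : ℚ), mul_neg_one, C_neg]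
    ring
  · subst h1
    rw [if_pos rfl, ← h]
    unfold col
    rw [if_neg (by omega : ¬ t + 1 ≤ t), if_pos le_rfl, Nat.sub_self,
      show t + 1 - t - 1 = 0 by omega, show n - t = (n - (t + 1)) + 1 by omega]
    simp only [pow_zero, C_1]
    ring
  · rw [if_neg h1.ne']
    unfold col
    rw [if_neg (by omega : ¬ t + 1 ≤ t0), if_neg (by omega : ¬ t ≤ t0),
      show t + 1 - t0 - 1 = (t - t0 - 1) + 1 by omega, show n - t = (n - (t + 1)) + 1 by omega,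
      pow_succ (-1 : ℚ), mul_neg_one, C_neg]
    ring

theorem natDegree_one_add_pow (a : ℕ) : ((1 + X : ℚ[X]) ^ a).natDegree = a := by
  rw [natDegree_pow, show (1 + X : ℚ[X]) = X + C 1 by rw [C_1, add_comm], natDegree_X_add_C, mul_one]

theorem natDegree_one_sub_pow (a : ℕ) : ((1 - X : ℚ[X]) ^ a).natDegree = a := by
  rw [natDegree_pow, show (1 - X : ℚ[X]) = -(X - C 1) by rw [C_1]; ring, natDegree_neg,
    natDegree_X_sub_C, mul_one]

theorem exists_col (n t0 j : ℕ) (ht0 : t0 < n) (hj : j < n + 1) (g : ℚ[X]) (hg : g.natDegree ≤ n)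
    (h1 : (1 + X) ^ (t0 + 1) ∣ g) (h2 : (1 - X) ^ (n - t0) ∣ X ^ j - g) :
    ∃ (H : E n → ℚ) (p : ℚ[X]), (1 - X) * p = X ^ j - g ∧
      (∀ x : E n, (x.1 : ℕ) = t0 + 1 → H x = p.coeff x.2) ∧
      ∀ o : O n, ∑ x, K0 n o x * H x = if o = (⟨t0, ht0⟩, ⟨j, hj⟩) then 1 else 0 := by
  obtain ⟨r, hr⟩ := h1
  obtain ⟨r', hr'⟩ := h2
  have hid : (1 + X) ^ (t0 + 1) * r + (1 - X) ^ (n - t0) * r' = X ^ j := by
    rw [← hr, ← hr']; ring
  have hne1 : ((1 + X : ℚ[X]) ^ (t0 + 1)) ≠ 0 := by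
    intro hc
    have := natDegree_one_add_pow (t0 + 1)
    rw [hc, natDegree_zero] at this
    omega
  have hne2 : ((1 - X : ℚ[X]) ^ (n - t0)) ≠ 0 := by
    intro hc
    have := natDegree_one_sub_pow (n - t0)
    rw [hc, natDegree_zero] at this
    omega
  have hdr : r.natDegree + t0 < n := by
    rcases eq_or_ne r 0 with h0 | h0
    · rw [h0, natDegree_zero]; omega
    · rw [hr, natDegree_mul hne1 h0, natDegree_one_add_pow] at hg
      omega
  have hdr' : r'.natDegree ≤ t0 := by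
    rcases eq_or_ne r' 0 with h0 | h0
    · rw [h0, natDegree_zero]; omega
    · have : (X ^ j - g).natDegree ≤ n := by
        refine (natDegree_sub_le _ _).trans (max_le ?_ hg)
        rw [natDegree_X_pow]; omega
      rw [hr', natDegree_mul hne2 h0, natDegree_one_sub_pow] at this
      omega
  refine ⟨fun x => (col n t0 r r' x.1).coeff x.2, (1 - X) ^ (n - (t0 + 1)) * r', ?_, ?_, ?_⟩
  · rw [hr', show n - t0 = (n - (t0 + 1)) + 1 by omega]
    ring
  · intro x hx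
    show (col n t0 r r' x.1).coeff x.2 = _
    rw [hx]
    unfold col
    rw [if_neg (by omega : ¬ t0 + 1 ≤ t0), show t0 + 1 - t0 - 1 = 0 by omega]
    simp
  · intro o
    rw [K0_apply n (col n t0 r r') (fun s hs => col_top n t0 r r' s ht0 hs hdr hdr') o,
      col_rec n t0 j r r' o.1 ht0 o.1.2 hid]
    by_cases ho : (o.1 : ℕ) = t0
    · rw [if_pos ho, coeff_X_pow]
      by_cases ho2 : (o.2 : ℕ) = j
      · rw [if_pos ho2, if_pos (Prod.ext (Fin.ext ho) (Fin.ext ho2))]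
      · rw [if_neg ho2, if_neg (fun hc => ho2 (by rw [hc]))]
    · rw [if_neg ho, coeff_zero, if_neg (fun hc => ho (by rw [hc]))]

end Pool.Agent.TH391.Az
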