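import Pool.Agent.TH391.Az.Values

namespace Pool.Agent.TH391.Az

open Finset Polynomial Pool.Agent.Helper848 Pool.Agent.Helper848.AztecDet

/-- point reflection of the cells -/
def refl (p : ℤ × ℤ) : ℤ × ℤ := (-1 - p.1, -1 - p.2)

theorem refl_refl (p : ℤ × ℤ) : refl (refl p) = p := by
  unfold refl; ext <;> simp

theorem refl_inj : Function.Injective refl := by
  intro p q h
  rw [← refl_refl p, h, refl_refl]

theorem adj_refl {p q : ℤ × ℤ} (h : Adj p q) : Adj (refl p) (refl q) := by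
  unfold Adj refl at *; simp only; omega

theorem image_refl_refl (S : Finset (ℤ × ℤ)) : (S.image refl).image refl = S := by
  rw [Finset.image_image]
  have : refl ∘ refl = id := by funext p; exact refl_refl p
  rw [this, Finset.image_id]

theorem isTiling_refl (R : Finset (ℤ × ℤ)) (T : Finset (Finset (ℤ × ℤ))) (h : IsTiling R T) :
    IsTiling (R.image refl) (T.image (Finset.image refl)) := by
  obtain ⟨h1, h2⟩ := h
  constructor
  · intro D hD
    obtain ⟨D', hD', rfl⟩ := Finset.mem_image.mp hD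
    obtain ⟨ha, p, q, hpq, he⟩ := h1 D' hD'
    refine ⟨Finset.image_subset_image ha, refl p, refl q, adj_refl hpq, ?_⟩
    rw [he, Finset.image_insert, Finset.image_singleton]
  · intro c hc
    obtain ⟨c', hc', rfl⟩ := Finset.mem_image.mp hc
    obtain ⟨D, ⟨hD1, hD2⟩, hD3⟩ := h2 c' hc'
    refine ⟨D.image refl, ⟨Finset.mem_image_of_mem _ hD1, Finset.mem_image_of_mem _ hD2⟩, ?_⟩
    rintro D' ⟨hD', hcD'⟩
    obtain ⟨D'', hD'', rfl⟩ := Finset.mem_image.mp hD'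
    rw [hD3 D'' ⟨hD'', ?_⟩]
    obtain ⟨c'', hc'', he⟩ := Finset.mem_image.mp hcD'
    rw [← refl_inj he]
    exact hc''

theorem numTilings_refl (R : Finset (ℤ × ℤ)) : numTilings (R.image refl) = numTilings R := by
  unfold numTilings
  have hinj : Function.Injective (Finset.image (Finset.image refl)) := by
    apply Finset.image_injective
    exact Finset.image_injective refl_inj
  rw [← Set.ncard_image_of_injective {T | IsTiling R T} hinj]
  congr 1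
  ext T
  constructor
  · intro hT
    refine ⟨T.image (Finset.image refl), ?_, ?_⟩
    · have := isTiling_refl _ _ hT
      rw [image_refl_refl] at this
      exact this
    · rw [Finset.image_image]
      have : Finset.image refl ∘ Finset.image refl = id := by
        funext S; exact image_refl_refl S
      rw [this, Finset.image_id]
  · rintro ⟨T', hT', rfl⟩
    exact isTiling_refl _ _ hT'

/-- The Aztec diamond of order `n` with the two unit squares centred at `(-1/2, -1/2)` and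
`(1/2, 3/2)` deleted. -/
noncomputable def knightRegion (n : ℕ) : Finset (ℤ × ℤ) := aztec n \ {(-1, -1), (0, 1)}

theorem reg_even (N k : ℕ) (hN : N + 1 = 2 * k) (hk : 1 ≤ k) :
    reg (N + 1) (⟨k, by omega⟩, ⟨k - 1, by omega⟩) (⟨k - 1, by omega⟩, ⟨k + 1, by omega⟩) =
      knightRegion (N + 1) := by
  have e1 : cP (N + 1) (⟨k, by omega⟩, ⟨k - 1, by omega⟩) = (-1, -1) := by
    unfold cP
    ext <;> simp only <;> omega
  have e2 : cQ (N + 1) (⟨k - 1, by omega⟩, ⟨k + 1, by omega⟩) = (0, 1) := by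
    unfold cQ
    ext <;> simp only <;> omega
  unfold reg knightRegion
  rw [e1, e2]
  ext p
  simp only [Finset.mem_erase, Finset.mem_sdiff, Finset.mem_insert, Finset.mem_singleton]
  tauto

theorem reg_odd (N k : ℕ) (hN : N + 1 = 2 * k + 1) (hk : 1 ≤ k) :
    reg (N + 1) (⟨k + 1, by omega⟩, ⟨k - 1, by omega⟩) (⟨k, by omega⟩, ⟨k + 1, by omega⟩) =
      (knightRegion (N + 1)).image refl := by
  have e1 : cP (N + 1) (⟨k + 1, by omega⟩, ⟨k - 1, by omega⟩) = (-1, -2) := by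
    unfold cP
    ext <;> simp only <;> omega
  have e2 : cQ (N + 1) (⟨k, by omega⟩, ⟨k + 1, by omega⟩) = (0, 0) := by
    unfold cQ
    ext <;> simp only <;> omega
  unfold reg knightRegion
  rw [e1, e2]
  ext p
  simp only [Finset.mem_erase, Finset.mem_sdiff, Finset.mem_insert, Finset.mem_singleton,
    Finset.mem_image, mem_aztec]
  constructor
  · rintro ⟨ha, hb, hc⟩
    refine ⟨refl p, ⟨?_, ?_⟩, refl_refl p⟩
    · unfold refl; simp only; omega
    · unfold refl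
      rcases p with ⟨a, b⟩
      simp only [Prod.mk.injEq, ne_eq] at ha hb ⊢
      omega
  · rintro ⟨q, ⟨ha, hb⟩, rfl⟩
    unfold refl
    rcases q with ⟨a, b⟩
    simp only [Prod.mk.injEq, ne_eq] at ha hb ⊢
    omega

theorem neg_pow_sq (M : ℕ) : ((-1 : ℚ) ^ M) * (-1) ^ M = 1 := by
  rw [← mul_pow]; norm_num

theorem T0 (M : ℕ) : numTilings (knightRegion (4 * (M + 1))) =
    2 ^ (8 * M ^ 2 + 10 * M + 1) * (M + 1) * ((2 * (M + 1)).choose (M + 1)) ^ 2 *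
      (16 ^ (M + 1) + ((2 * (M + 1)).choose (M + 1)) ^ 2) := by
  have h := countA (4 * M + 3) (2 * (M + 1)) (M + 1) (by omega) (by omega) (by omega) (by omega)
  rw [reg_even (4 * M + 3) (2 * (M + 1)) (by omega) (by omega)] at h
  rw [show 4 * (M + 1) = 4 * M + 3 + 1 by ring]
  have hprev := hh_prev_even M
  have htop := hh_top_even M
  have hmid := hh_mid_even (M + 1)
  have hs := (coeff_sq (2 * (M + 1))).2 M
  have hs0 := (coeff_sq (2 * (M + 1))).1 (M + 1)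
  rw [show 2 * (M + 1) - 1 = 2 * M + 1 by omega] at h
  unfold cc at h
  rw [hprev, htop, hs, hs0] at h
  set B : ℕ := (2 * (M + 1)).choose (M + 1) with hB
  have h3 : (B : ℚ) = 2 * ((2 * M + 1).choose M : ℚ) := by
    rw [hB, show 2 * (M + 1) = 2 * M + 1 + 1 by ring, Nat.choose_succ_succ]
    have : (2 * M + 1).choose M.succ = (2 * M + 1).choose M := by
      rw [← Nat.choose_symm (by omega : M ≤ 2 * M + 1)]
      congr 1
      omega
    rw [this]
    push_cast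
    ring
  have h4 : (4 : ℚ) ^ (2 * (M + 1)) = 16 ^ (M + 1) := by rw [pow_mul]; norm_num
  have hm : (hh (2 * (M + 1)) (M + 1)).coeff (2 * (M + 1)) = (16 ^ (M + 1) + (B : ℚ) ^ 2) / 2 := by
    rw [h4] at hmid
    linarith
  rw [hm, h4] at h
  have he : (4 * M + 3 + 1) * (4 * M + 3 + 2) / 2 = 8 * M ^ 2 + 10 * M + 1 + 1 + 4 * (M + 1) + 4 * (M + 1) := by
    rw [show (4 * M + 3 + 1) * (4 * M + 3 + 2) =
      (8 * M ^ 2 + 10 * M + 1 + 1 + 4 * (M + 1) + 4 * (M + 1)) * 2 by ring]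
    exact Nat.mul_div_cancel _ (by norm_num)
  rw [he] at h
  have hq : (0 : ℚ) < 16 ^ (M + 1) := by positivity
  have h16 : (2 : ℚ) ^ (4 * (M + 1)) = 16 ^ (M + 1) := by rw [pow_mul]; norm_num
  have hval : ((((M : ℚ) + 1) * (B : ℚ) ^ 2 / 16 ^ (M + 1) -
      (1 - (16 ^ (M + 1) + (B : ℚ) ^ 2) / 2 / 16 ^ (M + 1)) / 2 +
      (-1) ^ (2 * (M + 1) + 1) * ((-1) ^ (M + 1) * ((2 * M + 1).choose M : ℚ)) / 16 ^ (M + 1) * 0) *
      (1 - 2 * ((1 - (16 ^ (M + 1) + (B : ℚ) ^ 2) / 2 / 16 ^ (M + 1)) / 2)) +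
      2 * (-((1 - (16 ^ (M + 1) + (B : ℚ) ^ 2) / 2 / 16 ^ (M + 1)) / 2) *
        (-((1 - (16 ^ (M + 1) + (B : ℚ) ^ 2) / 2 / 16 ^ (M + 1)) / 2) +
        (-1) ^ (2 * (M + 1) + 1) * ((-1) ^ (M + 1) * ((2 * M + 1).choose M : ℚ)) / 16 ^ (M + 1) *
        ((-1) ^ (M + 1) * (B : ℚ))))) =
      (M + 1) * (B : ℚ) ^ 2 * (16 ^ (M + 1) + (B : ℚ) ^ 2) / (2 * 16 ^ (M + 1) * 16 ^ (M + 1)) := by
    have hs1 : (-1 : ℚ) ^ (2 * (M + 1) + 1) = -1 := Odd.neg_one_pow ⟨M + 1, rfl⟩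
    have hs2 := neg_pow_sq (M + 1)
    rw [hs1]
    have hB1 : ((2 * M + 1).choose M : ℚ) = (B : ℚ) / 2 := by linarith
    rw [hB1]
    generalize (-1 : ℚ) ^ (M + 1) = σ at hs2 ⊢
    have e5 : -1 * (σ * ((B : ℚ) / 2)) / 16 ^ (M + 1) * (σ * (B : ℚ)) =
        - ((B : ℚ) ^ 2 / 2 / 16 ^ (M + 1)) := by
      linear_combination (-(B : ℚ) ^ 2 / 2 / 16 ^ (M + 1)) * hs2
    rw [e5]
    field_simp
    ring
  rw [hval, abs_of_nonneg (by positivity)] at h
  have hfin : (numTilings (knightRegion (4 * M + 3 + 1)) : ℚ) =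
      ((2 ^ (8 * M ^ 2 + 10 * M + 1) * (M + 1) * B ^ 2 * (16 ^ (M + 1) + B ^ 2) : ℕ) : ℚ) := by
    rw [h]
    push_cast
    rw [pow_add _ _ (4 * (M + 1)), pow_add _ _ (4 * (M + 1)), pow_add _ _ 1, h16]
    field_simp
    try ring
  exact_mod_cast hfin

theorem T1 (M : ℕ) : numTilings (knightRegion (4 * (M + 1) + 1)) =
    2 ^ (8 * M ^ 2 + 14 * M + 5) * (2 * M + 3) * ((2 * (M + 1)).choose (M + 1)) ^ 2 *
      (16 ^ (M + 1) - ((2 * (M + 1)).choose (M + 1)) ^ 2) := by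
  have h := countC (4 * M + 4) (2 * (M + 1)) M (by omega) rfl
  rw [reg_odd (4 * M + 4) (2 * (M + 1)) (by omega) (by omega), numTilings_refl] at h
  rw [show 4 * (M + 1) + 1 = 4 * M + 4 + 1 by ring]
  have hprev := hh_prev_even M
  have hmid := hh_mid_even (M + 1)
  rw [show 2 * (M + 1) - 1 = 2 * M + 1 by omega] at h
  unfold cc at h
  rw [hprev] at h
  have hle : ((2 * (M + 1)).choose (M + 1)) ^ 2 ≤ 16 ^ (M + 1) := by
    have h1 : (2 * (M + 1)).choose (M + 1) ≤ 2 ^ (2 * (M + 1)) := Nat.choose_le_two_pow _ _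
    calc ((2 * (M + 1)).choose (M + 1)) ^ 2 ≤ (2 ^ (2 * (M + 1))) ^ 2 := Nat.pow_le_pow_left h1 2
      _ = 16 ^ (M + 1) := by
        rw [← pow_mul, show 2 * (M + 1) * 2 = 4 * (M + 1) by ring, pow_mul]
        norm_num
  set B : ℕ := (2 * (M + 1)).choose (M + 1) with hB
  have h4 : (4 : ℚ) ^ (2 * (M + 1)) = 16 ^ (M + 1) := by rw [pow_mul]; norm_num
  have hm : (hh (2 * (M + 1)) (M + 1)).coeff (2 * (M + 1)) = (16 ^ (M + 1) + (B : ℚ) ^ 2) / 2 := by
    rw [h4] at hmid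
    linarith
  rw [hm, h4] at h
  have he : (4 * M + 4 + 1) * (4 * M + 4 + 2) / 2 =
      8 * M ^ 2 + 14 * M + 5 + 2 + 4 * (M + 1) + 4 * (M + 1) := by
    rw [show (4 * M + 4 + 1) * (4 * M + 4 + 2) =
      (8 * M ^ 2 + 14 * M + 5 + 2 + 4 * (M + 1) + 4 * (M + 1)) * 2 by ring]
    exact Nat.mul_div_cancel _ (by norm_num)
  rw [he] at h
  have hq : (0 : ℚ) < 16 ^ (M + 1) := by positivity
  have h16 : (2 : ℚ) ^ (4 * (M + 1)) = 16 ^ (M + 1) := by rw [pow_mul]; norm_num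
  have hleQ : (B : ℚ) ^ 2 ≤ 16 ^ (M + 1) := by exact_mod_cast hle
  have hval : ((((M : ℚ) + 1) * (B : ℚ) ^ 2 / 16 ^ (M + 1) -
      (1 - (16 ^ (M + 1) + (B : ℚ) ^ 2) / 2 / 16 ^ (M + 1)) / 2) *
      (1 - 2 * ((1 - (16 ^ (M + 1) + (B : ℚ) ^ 2) / 2 / 16 ^ (M + 1)) / 2 +
        (B : ℚ) ^ 2 / 16 ^ (M + 1) / 2)) +
      2 * (-((1 - (16 ^ (M + 1) + (B : ℚ) ^ 2) / 2 / 16 ^ (M + 1)) / 2) *
        (-((1 - (16 ^ (M + 1) + (B : ℚ) ^ 2) / 2 / 16 ^ (M + 1)) / 2) -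
        (B : ℚ) ^ 2 / 16 ^ (M + 1) / 2))) =
      (2 * M + 3) * (B : ℚ) ^ 2 * (16 ^ (M + 1) - (B : ℚ) ^ 2) /
        (4 * 16 ^ (M + 1) * 16 ^ (M + 1)) := by
    field_simp
    ring
  have hnn : (0 : ℚ) ≤ (2 * M + 3) * (B : ℚ) ^ 2 * (16 ^ (M + 1) - (B : ℚ) ^ 2) /
        (4 * 16 ^ (M + 1) * 16 ^ (M + 1)) := by
    refine div_nonneg (mul_nonneg (by positivity) (by linarith)) (by positivity)
  rw [hval, abs_of_nonneg hnn] at h
  have hfin : (numTilings (knightRegion (4 * M + 4 + 1)) : ℚ) =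
      ((2 ^ (8 * M ^ 2 + 14 * M + 5) * (2 * M + 3) * B ^ 2 * (16 ^ (M + 1) - B ^ 2) : ℕ) : ℚ) := by
    rw [h]
    push_cast [hle]
    rw [pow_add _ _ (4 * (M + 1)), pow_add _ _ (4 * (M + 1)), pow_add _ _ 2, h16]
    field_simp
    try ring
  exact_mod_cast hfin

theorem choose_rel (m : ℕ) : ((m : ℚ) + 1) * ((2 * m + 1).choose m : ℚ) =
    (2 * m + 1) * ((2 * m).choose m : ℚ) := by
  have e := Nat.add_one_mul_choose_eq (2 * m) m
  have e2 : (2 * m + 1).choose m = (2 * m + 1).choose (m + 1) := by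
    rw [← Nat.choose_symm (by omega : m + 1 ≤ 2 * m + 1)]
    congr 1
    omega
  rw [e2]
  have e3 : (((2 * m + 1) * (2 * m).choose m : ℕ) : ℚ) =
    (((2 * m + 1).choose (m + 1) * (m + 1) : ℕ) : ℚ) := by exact_mod_cast e
  push_cast at e3 ⊢
  linarith

theorem T2 (m : ℕ) : numTilings (knightRegion (4 * m + 2)) =
    2 ^ (8 * m ^ 2 + 6 * m + 1) * (2 * m + 1) * ((2 * m).choose m) ^ 2 := by
  have h := countA (4 * m + 1) (2 * m + 1) m (by omega) (by omega) (by omega) (by omega)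
  rw [reg_even (4 * m + 1) (2 * m + 1) (by omega) (by omega)] at h
  rw [show 4 * m + 2 = 4 * m + 1 + 1 by ring]
  have hprev := hh_prev_odd m
  have htop := hh_top_odd m
  have hmid := hh_mid_odd m
  have hs := (coeff_sq (2 * m + 1)).2 m
  have hs0 := (coeff_sq (2 * m + 1)).1 m
  rw [show 2 * m + 1 - 1 = 2 * m by omega] at h
  unfold cc at h
  rw [hprev, htop, hs, hs0] at h
  have hrel := choose_rel m
  set B : ℕ := (2 * m).choose m with hB
  set D : ℕ := (2 * m + 1).choose m with hD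
  have hm : (hh (2 * m + 1) m).coeff (2 * m + 1) = 4 ^ (2 * m + 1) / 2 := by linarith
  rw [hm] at h
  have he : (4 * m + 1 + 1) * (4 * m + 1 + 2) / 2 = 8 * m ^ 2 + 6 * m + 1 + 2 * (2 * m + 1) := by
    rw [show (4 * m + 1 + 1) * (4 * m + 1 + 2) =
      (8 * m ^ 2 + 6 * m + 1 + 2 * (2 * m + 1)) * 2 by ring]
    exact Nat.mul_div_cancel _ (by norm_num)
  rw [he] at h
  have hq : (0 : ℚ) < 4 ^ (2 * m + 1) := by positivity
  have h16 : (2 : ℚ) ^ (2 * (2 * m + 1)) = 4 ^ (2 * m + 1) := by rw [pow_mul]; norm_num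
  have hDB : (D : ℚ) = (2 * m + 1) * B / (m + 1) := by
    field_simp
    linarith
  have hval : ((((m : ℚ) + 1) * (D : ℚ) ^ 2 / 4 ^ (2 * m + 1) -
      (1 - 4 ^ (2 * m + 1) / 2 / 4 ^ (2 * m + 1)) / 2 +
      (-1) ^ (2 * m + 1 + 1) * ((-1) ^ m * (B : ℚ)) / 4 ^ (2 * m + 1) * ((-1) ^ m * (D : ℚ))) *
      (1 - 2 * ((1 - 4 ^ (2 * m + 1) / 2 / 4 ^ (2 * m + 1)) / 2)) +
      2 * (-((1 - 4 ^ (2 * m + 1) / 2 / 4 ^ (2 * m + 1)) / 2) *
        (-((1 - 4 ^ (2 * m + 1) / 2 / 4 ^ (2 * m + 1)) / 2) +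
        (-1) ^ (2 * m + 1 + 1) * ((-1) ^ m * (B : ℚ)) / 4 ^ (2 * m + 1) * 0))) =
      (2 * m + 1) * (B : ℚ) ^ 2 / 4 ^ (2 * m + 1) := by
    have hs1 : (-1 : ℚ) ^ (2 * m + 1 + 1) = 1 := Even.neg_one_pow ⟨m + 1, by ring⟩
    have hs2 := neg_pow_sq m
    rw [hs1]
    generalize (-1 : ℚ) ^ m = σ at hs2 ⊢
    have e5 : 1 * (σ * (B : ℚ)) / 4 ^ (2 * m + 1) * (σ * (D : ℚ)) =
        (B : ℚ) * D / 4 ^ (2 * m + 1) := by
      linear_combination ((B : ℚ) * D / 4 ^ (2 * m + 1)) * hs2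
    rw [e5, hDB]
    field_simp
    ring
  rw [hval, abs_of_nonneg (by positivity)] at h
  have hfin : (numTilings (knightRegion (4 * m + 1 + 1)) : ℚ) =
      ((2 ^ (8 * m ^ 2 + 6 * m + 1) * (2 * m + 1) * B ^ 2 : ℕ) : ℚ) := by
    rw [h]
    push_cast
    rw [pow_add _ _ (2 * (2 * m + 1)), h16]
    field_simp
    try ring
  exact_mod_cast hfin

theorem T3 (m : ℕ) : numTilings (knightRegion (4 * m + 3)) =
    2 ^ (8 * m ^ 2 + 10 * m + 1) * (m + 1) * ((2 * (m + 1)).choose (m + 1)) ^ 2 := by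
  have h := countB (4 * m + 2) (2 * m + 1) m (by omega) (by omega) (by omega) (by omega) (by omega)
  rw [reg_odd (4 * m + 2) (2 * m + 1) (by omega) (by omega), numTilings_refl] at h
  rw [show 4 * m + 3 = 4 * m + 2 + 1 by ring]
  have hprev := hh_prev_odd m
  have hmid := hh_mid_odd m
  rw [show 2 * m + 1 - 1 = 2 * m by omega] at h
  unfold cc at h
  rw [hprev] at h
  set B : ℕ := (2 * (m + 1)).choose (m + 1) with hB
  have h3 : (B : ℚ) = 2 * ((2 * m + 1).choose m : ℚ) := by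
    rw [hB, show 2 * (m + 1) = 2 * m + 1 + 1 by ring, Nat.choose_succ_succ]
    have : (2 * m + 1).choose m.succ = (2 * m + 1).choose m := by
      rw [← Nat.choose_symm (by omega : m ≤ 2 * m + 1)]
      congr 1
      omega
    rw [this]
    push_cast
    ring
  set D : ℕ := (2 * m + 1).choose m with hD
  have hm : (hh (2 * m + 1) m).coeff (2 * m + 1) = 4 ^ (2 * m + 1) / 2 := by linarith
  rw [hm] at h
  have he : (4 * m + 2 + 1) * (4 * m + 2 + 2) / 2 =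
      8 * m ^ 2 + 10 * m + 1 + 3 + 2 * (2 * m + 1) := by
    rw [show (4 * m + 2 + 1) * (4 * m + 2 + 2) =
      (8 * m ^ 2 + 10 * m + 1 + 3 + 2 * (2 * m + 1)) * 2 by ring]
    exact Nat.mul_div_cancel _ (by norm_num)
  rw [he] at h
  have hq : (0 : ℚ) < 4 ^ (2 * m + 1) := by positivity
  have h16 : (2 : ℚ) ^ (2 * (2 * m + 1)) = 4 ^ (2 * m + 1) := by rw [pow_mul]; norm_num
  have hval : ((((m : ℚ) + 1) * (D : ℚ) ^ 2 / 4 ^ (2 * m + 1) -
      (1 - 4 ^ (2 * m + 1) / 2 / 4 ^ (2 * m + 1)) / 2) *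
      (1 - 2 * ((1 - 4 ^ (2 * m + 1) / 2 / 4 ^ (2 * m + 1)) / 2)) +
      2 * (-((1 - 4 ^ (2 * m + 1) / 2 / 4 ^ (2 * m + 1)) / 2) *
        (-((1 - 4 ^ (2 * m + 1) / 2 / 4 ^ (2 * m + 1)) / 2)))) =
      (m + 1) * (D : ℚ) ^ 2 / (2 * 4 ^ (2 * m + 1)) := by
    field_simp
    ring
  rw [hval, abs_of_nonneg (by positivity)] at h
  have hfin : (numTilings (knightRegion (4 * m + 2 + 1)) : ℚ) =
      ((2 ^ (8 * m ^ 2 + 10 * m + 1) * (m + 1) * B ^ 2 : ℕ) : ℚ) := by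
    rw [h]
    push_cast
    rw [h3, pow_add _ _ (2 * (2 * m + 1)), pow_add _ _ 3, h16]
    field_simp
    try ring
  exact_mod_cast hfin

end Pool.Agent.TH391.Az
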