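import Pool.Agent.Helper848.Kast
import Pool.Agent.Helper848.AztecDet

namespace Pool.Agent.TH391.Az

open Finset Pool.Agent.Helper848 Pool.Agent.Helper848.AztecDet

/-- The Aztec diamond of order `n`; the unit cell `(a, b)` is the unit square whose centre is
`(a + 1/2, b + 1/2)`, and it belongs to the Aztec diamond when `|a + 1/2| + |b + 1/2| ≤ n`. -/
noncomputable def aztec (n : ℕ) : Finset (ℤ × ℤ) :=
  (Finset.Icc (-(n : ℤ)) n ×ˢ Finset.Icc (-(n : ℤ)) n).filter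
    fun p => (2 * p.1 + 1).natAbs + (2 * p.2 + 1).natAbs ≤ 2 * n

theorem mem_aztec (n : ℕ) (p : ℤ × ℤ) : p ∈ aztec n ↔
    (-(n : ℤ) ≤ p.1 + p.2 + 1 ∧ p.1 + p.2 + 1 ≤ n ∧ -(n : ℤ) ≤ p.1 - p.2 ∧ p.1 - p.2 ≤ n) := by
  unfold aztec
  simp only [Finset.mem_filter, Finset.mem_product, Finset.mem_Icc]
  omega

/-- cells of the first colour -/
def cP (n : ℕ) (x : E n) : ℤ × ℤ := ((x.2 : ℤ) + (x.1 : ℤ) - n, (x.2 : ℤ) - (x.1 : ℤ))

/-- cells of the second colour -/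
def cQ (n : ℕ) (o : O n) : ℤ × ℤ := ((o.2 : ℤ) + (o.1 : ℤ) - n, (o.2 : ℤ) - (o.1 : ℤ) - 1)

theorem cP_inj (n : ℕ) : Function.Injective (cP n) := by
  rintro ⟨s, i⟩ ⟨s', i'⟩ h
  simp only [cP, Prod.mk.injEq] at h ⊢
  exact ⟨Fin.ext (by omega), Fin.ext (by omega)⟩

theorem cQ_inj (n : ℕ) : Function.Injective (cQ n) := by
  rintro ⟨s, i⟩ ⟨s', i'⟩ h
  simp only [cQ, Prod.mk.injEq] at h ⊢
  exact ⟨Fin.ext (by omega), Fin.ext (by omega)⟩

theorem cP_ex (n : ℕ) (p : ℤ × ℤ) : (∃ x, cP n x = p) ↔ p ∈ aztec n ∧ Even (p.1 + p.2 + n) := by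
  rw [mem_aztec, Int.even_iff]
  constructor
  · rintro ⟨⟨⟨s, hs⟩, ⟨i, hi⟩⟩, rfl⟩
    simp only [cP]
    omega
  · rintro ⟨h1, h2⟩
    refine ⟨(⟨((p.1 - p.2 + n) / 2).toNat, by omega⟩, ⟨((p.1 + p.2 + n) / 2).toNat, by omega⟩), ?_⟩
    simp only [cP]
    ext <;> simp only <;> omega

theorem cQ_ex (n : ℕ) (p : ℤ × ℤ) : (∃ x, cQ n x = p) ↔ p ∈ aztec n ∧ ¬ Even (p.1 + p.2 + n) := by
  rw [mem_aztec, Int.even_iff]
  constructor
  · rintro ⟨⟨⟨s, hs⟩, ⟨i, hi⟩⟩, rfl⟩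
    simp only [cQ]
    omega
  · rintro ⟨h1, h2⟩
    refine ⟨(⟨((p.1 - p.2 + n - 1) / 2).toNat, by omega⟩,
      ⟨((p.1 + p.2 + n + 1) / 2).toNat, by omega⟩), ?_⟩
    simp only [cQ]
    ext <;> simp only <;> omega

theorem above_aztec (n : ℕ) (p : ℤ × ℤ) (hp : p ∈ aztec n) (c : ℕ)
    (hc : (2 * c : ℤ) = n - (p.1 + p.2 + 1) ∨ (2 * c + 1 : ℤ) = n - (p.1 + p.2 + 1)) :
    above (aztec n) p = c := by
  unfold above
  have h : (aztec n).filter (fun q => q.2 - q.1 = p.2 - p.1 ∧ p.1 < q.1) =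
      (Finset.range c).image fun d : ℕ => (p.1 + (d : ℤ) + 1, p.2 + (d : ℤ) + 1) := by
    rw [mem_aztec] at hp
    ext q
    simp only [Finset.mem_filter, mem_aztec, Finset.mem_image, Finset.mem_range]
    constructor
    · intro hq
      refine ⟨(q.1 - p.1 - 1).toNat, by omega, ?_⟩
      ext <;> simp only <;> omega
    · rintro ⟨d, hd, rfl⟩
      simp only
      omega
  rw [h, Finset.card_image_of_injective, Finset.card_range]
  intro a b hab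
  simp only [Prod.mk.injEq] at hab
  omega

theorem below_aztec (n : ℕ) (p : ℤ × ℤ) (hp : p ∈ aztec n) (c : ℕ)
    (hc : (2 * c : ℤ) = n + (p.1 + p.2 + 1) ∨ (2 * c + 1 : ℤ) = n + (p.1 + p.2 + 1)) :
    below (aztec n) p = c := by
  unfold below
  have h : (aztec n).filter (fun q => q.2 - q.1 = p.2 - p.1 ∧ q.1 < p.1) =
      (Finset.range c).image fun d : ℕ => (p.1 - (d : ℤ) - 1, p.2 - (d : ℤ) - 1) := by
    rw [mem_aztec] at hp
    ext q
    simp only [Finset.mem_filter, mem_aztec, Finset.mem_image, Finset.mem_range]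
    constructor
    · intro hq
      refine ⟨(p.1 - q.1 - 1).toNat, by omega, ?_⟩
      ext <;> simp only <;> omega
    · rintro ⟨d, hd, rfl⟩
      simp only
      omega
  rw [h, Finset.card_image_of_injective, Finset.card_range]
  intro a b hab
  simp only [Prod.mk.injEq] at hab
  omega

theorem above_erase (S : Finset (ℤ × ℤ)) (h p : ℤ × ℤ) (hh : h ∈ S) :
    above (S.erase h) p + (if h.2 - h.1 = p.2 - p.1 ∧ p.1 < h.1 then 1 else 0) = above S p := by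
  unfold above
  rw [Finset.filter_erase]
  split_ifs with hc
  · rw [Finset.card_erase_add_one]
    exact Finset.mem_filter.mpr ⟨hh, hc⟩
  · rw [Finset.erase_eq_of_notMem, add_zero]
    intro hm
    exact hc (Finset.mem_filter.mp hm).2

theorem below_erase (S : Finset (ℤ × ℤ)) (h p : ℤ × ℤ) (hh : h ∈ S) :
    below (S.erase h) p + (if h.2 - h.1 = p.2 - p.1 ∧ h.1 < p.1 then 1 else 0) = below S p := by
  unfold below
  rw [Finset.filter_erase]
  split_ifs with hc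
  · rw [Finset.card_erase_add_one]
    exact Finset.mem_filter.mpr ⟨hh, hc⟩
  · rw [Finset.erase_eq_of_notMem, add_zero]
    intro hm
    exact hc (Finset.mem_filter.mp hm).2

/-- integer version of the Kasteleyn matrix -/
def Kz (n : ℕ) (o : O n) (x : E n) : ℤ :=
  if (x.1 : ℕ) = o.1 + 1 then
    (if (x.2 : ℕ) = o.2 then 1 else if (x.2 : ℕ) + 1 = o.2 then -1 else 0)
  else if (x.1 : ℕ) = o.1 then
    (if (x.2 : ℕ) = o.2 ∨ (x.2 : ℕ) + 1 = o.2 then 1 else 0)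
  else 0

theorem Kz_cast (n : ℕ) (o : O n) (x : E n) : ((Kz n o x : ℤ) : ℚ) = K0 n o x := by
  unfold Kz K0
  rw [Matrix.of_apply]
  split_ifs <;> first | omega | norm_num

/-- the region with the two cells `cP p0`, `cQ q0` removed -/
noncomputable def reg (n : ℕ) (p0 : E n) (q0 : O n) : Finset (ℤ × ℤ) :=
  ((aztec n).erase (cQ n q0)).erase (cP n p0)

theorem cP_mem (n : ℕ) (x : E n) : cP n x ∈ aztec n := ((cP_ex n _).mp ⟨x, rfl⟩).1
theorem cQ_mem (n : ℕ) (x : O n) : cQ n x ∈ aztec n := ((cQ_ex n _).mp ⟨x, rfl⟩).1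
theorem cP_ne_cQ (n : ℕ) (x : E n) (o : O n) : cP n x ≠ cQ n o := by
  intro h
  have h1 := ((cP_ex n _).mp ⟨x, rfl⟩).2
  have h2 := ((cQ_ex n _).mp ⟨o, rfl⟩).2
  rw [h] at h1
  exact h2 h1

theorem above_reg (n : ℕ) (p0 x : E n) (q0 : O n) :
    above (reg n p0 q0) (cP n x) + (if (x.1 : ℕ) = p0.1 ∧ (x.2 : ℕ) < p0.2 then 1 else 0) =
      n - 1 - (x.2 : ℕ) := by
  have h1 := above_erase ((aztec n).erase (cQ n q0)) (cP n p0) (cP n x)
    (Finset.mem_erase.mpr ⟨cP_ne_cQ n _ _, cP_mem n _⟩)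
  have h2 := above_erase (aztec n) (cQ n q0) (cP n x) (cQ_mem n _)
  have h3 := above_aztec n (cP n x) (cP_mem n x) (n - 1 - (x.2 : ℕ)) (by
    right
    simp only [cP]
    have := x.2.2
    omega)
  rw [h3] at h2
  have e2 : ¬ ((cQ n q0).2 - (cQ n q0).1 = (cP n x).2 - (cP n x).1 ∧ (cP n x).1 < (cQ n q0).1) := by
    simp only [cP, cQ]
    omega
  have e1 : ((cP n p0).2 - (cP n p0).1 = (cP n x).2 - (cP n x).1 ∧ (cP n x).1 < (cP n p0).1) ↔
      ((x.1 : ℕ) = p0.1 ∧ (x.2 : ℕ) < p0.2) := by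
    simp only [cP]
    omega
  rw [if_neg e2, add_zero] at h2
  simp only [e1] at h1
  unfold reg
  rw [h1, h2]

theorem below_reg (n : ℕ) (p0 : E n) (o q0 : O n) :
    below (reg n p0 q0) (cQ n o) + (if (o.1 : ℕ) = q0.1 ∧ (q0.2 : ℕ) < o.2 then 1 else 0) =
      (o.2 : ℕ) := by
  have h1 := below_erase ((aztec n).erase (cQ n q0)) (cP n p0) (cQ n o)
    (Finset.mem_erase.mpr ⟨cP_ne_cQ n _ _, cP_mem n _⟩)
  have h2 := below_erase (aztec n) (cQ n q0) (cQ n o) (cQ_mem n _)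
  have h3 := below_aztec n (cQ n o) (cQ_mem n o) (o.2 : ℕ) (by
    left
    simp only [cQ]
    omega)
  rw [h3] at h2
  have e2 : ¬ ((cP n p0).2 - (cP n p0).1 = (cQ n o).2 - (cQ n o).1 ∧ (cP n p0).1 < (cQ n o).1) := by
    simp only [cP, cQ]
    omega
  have e1 : ((cQ n q0).2 - (cQ n q0).1 = (cQ n o).2 - (cQ n o).1 ∧ (cQ n q0).1 < (cQ n o).1) ↔
      ((o.1 : ℕ) = q0.1 ∧ (q0.2 : ℕ) < o.2) := by
    simp only [cQ]
    omega
  rw [if_neg e2, add_zero] at h1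
  simp only [e1] at h2
  unfold reg
  rw [h1, h2]

/-- gauge signs -/
def gs (n s0 s : ℕ) : ℤˣ := ((-1) ^ (n + 1)) ^ s * (if s0 ≤ s then -1 else 1)

theorem kast_reg (n : ℕ) (p0 x : E n) (o q0 : O n) (h0 : (p0.1 : ℕ) = q0.1 + 1)
    (h1 : (q0.2 : ℕ) = p0.2 + 2) (hx : x ≠ p0) (ho : o ≠ q0) :
    (if ((o.1 : ℕ) = q0.1 ∧ (o.2 : ℕ) = p0.2 + 1) ∧ ((x.1 : ℕ) = p0.1 ∧ (x.2 : ℕ) = p0.2 + 1)
      then -1 else Kz n o x) =
    (gs n p0.1 o.1 : ℤ) * (gs n p0.1 x.1 : ℤ) * kast (reg n p0 q0) (cQ n o) (cP n x) := by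
  have hA := above_reg n p0 x q0
  have hB := below_reg n p0 o q0
  set A := above (reg n p0 q0) (cP n x) with hAdef
  set B := below (reg n p0 q0) (cQ n o) with hBdef
  have hxi := x.2.2
  have hoi := o.2.2
  have hos := o.1.2
  have hxs := x.1.2
  have hadj : Adj (cP n x) (cQ n o) ↔ (((x.1 : ℕ) = o.1 ∨ (x.1 : ℕ) = o.1 + 1) ∧
      ((x.2 : ℕ) = o.2 ∨ (x.2 : ℕ) + 1 = o.2)) := by
    unfold Adj cP cQ
    simp only
    omega
  have hup : (cQ n o).2 - (cQ n o).1 = (cP n x).2 - (cP n x).1 + 1 ↔ (x.1 : ℕ) = o.1 + 1 := by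
    unfold cP cQ
    simp only
    omega
  have hk : kast (reg n p0 q0) (cQ n o) (cP n x) =
      if (((x.1 : ℕ) = o.1 ∨ (x.1 : ℕ) = o.1 + 1) ∧ ((x.2 : ℕ) = o.2 ∨ (x.2 : ℕ) + 1 = o.2)) then
        (if (x.1 : ℕ) = o.1 + 1 then (-1) ^ (A + B) else 1) else 0 := by
    unfold kast
    simp only [hadj, hup]
    rfl
  rw [hk]
  have hx' : ¬ ((x.1 : ℕ) = p0.1 ∧ (x.2 : ℕ) = p0.2) := by
    intro hc
    exact hx (Prod.ext (Fin.ext hc.1) (Fin.ext hc.2))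
  have ho' : ¬ ((o.1 : ℕ) = q0.1 ∧ (o.2 : ℕ) = q0.2) := by
    intro hc
    exact ho (Prod.ext (Fin.ext hc.1) (Fin.ext hc.2))
  by_cases hcase : (x.1 : ℕ) = o.1 + 1
  · -- signed block
    have hgauge : (gs n p0.1 o.1 : ℤ) * (gs n p0.1 x.1 : ℤ) =
        (-1) ^ (n + 1) * (if (x.1 : ℕ) = p0.1 then -1 else 1) := by
      have hsq : ((-1 : ℤ) ^ (n + 1)) ^ (o.1 : ℕ) * ((-1 : ℤ) ^ (n + 1)) ^ (o.1 : ℕ) = 1 := by
        rw [← mul_pow, ← mul_pow]; norm_num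
      unfold gs
      rw [hcase, pow_succ ((-1 : ℤˣ) ^ (n + 1)) (o.1 : ℕ)]
      push_cast
      have key : ∀ a b c : ℤ, a * a = 1 → (a * b) * (a * (-1) ^ (n + 1) * c) =
          (-1) ^ (n + 1) * (b * c) := by
        intro a b c ha
        linear_combination (b * c * (-1) ^ (n + 1)) * ha
      rw [key _ _ _ hsq]
      congr 1
      split_ifs <;> first | omega | norm_num
    rw [hgauge]
    by_cases hi : (x.2 : ℕ) = o.2
    · have hval : Kz n o x = 1 := by unfold Kz; rw [if_pos hcase, if_pos hi]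
      have hcond : (((x.1 : ℕ) = o.1 ∨ (x.1 : ℕ) = o.1 + 1) ∧
        ((x.2 : ℕ) = o.2 ∨ (x.2 : ℕ) + 1 = o.2)) := ⟨Or.inr hcase, Or.inl hi⟩
      rw [hval, if_pos hcond, if_pos hcase, mul_comm ((-1 : ℤ) ^ (n + 1)), mul_assoc, ← pow_add]
      have e : (-1 : ℤ) ^ (n + 1 + (A + B)) = if (x.1 : ℕ) = p0.1 ∧ ((x.2 : ℕ) < p0.2 ∨ p0.2 + 2 < (x.2 : ℕ)) then -1 else 1 := by
        rw [neg_one_pow_eq_pow_mod_two]
        split_ifs with hc
        · have : (n + 1 + (A + B)) % 2 = 1 := by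
            split_ifs at hA hB <;> omega
          rw [this]; norm_num
        · have : (n + 1 + (A + B)) % 2 = 0 := by
            split_ifs at hA hB <;> omega
          rw [this]; norm_num
      rw [e]
      split_ifs <;> first | omega | norm_num
    · by_cases hi2 : (x.2 : ℕ) + 1 = o.2
      · have hval : Kz n o x = -1 := by unfold Kz; rw [if_pos hcase, if_neg hi, if_pos hi2]
        have hcond : (((x.1 : ℕ) = o.1 ∨ (x.1 : ℕ) = o.1 + 1) ∧
          ((x.2 : ℕ) = o.2 ∨ (x.2 : ℕ) + 1 = o.2)) := ⟨Or.inr hcase, Or.inr hi2⟩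
        rw [hval, if_pos hcond, if_pos hcase, mul_comm ((-1 : ℤ) ^ (n + 1)), mul_assoc, ← pow_add]
        have e : (-1 : ℤ) ^ (n + 1 + (A + B)) = if (x.1 : ℕ) = p0.1 ∧ ((x.2 : ℕ) < p0.2 ∨ p0.2 + 1 < (x.2 : ℕ)) then 1 else -1 := by
          rw [neg_one_pow_eq_pow_mod_two]
          split_ifs with hc
          · have : (n + 1 + (A + B)) % 2 = 0 := by
              split_ifs at hA hB <;> omega
            rw [this]; norm_num
          · have : (n + 1 + (A + B)) % 2 = 1 := by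
              split_ifs at hA hB <;> omega
            rw [this]; norm_num
        rw [e]
        split_ifs <;> first | omega | norm_num
      · have hval : Kz n o x = 0 := by unfold Kz; rw [if_pos hcase, if_neg hi, if_neg hi2]
        have hc1 : ¬ (((o.1 : ℕ) = q0.1 ∧ (o.2 : ℕ) = p0.2 + 1) ∧
           ((x.1 : ℕ) = p0.1 ∧ (x.2 : ℕ) = p0.2 + 1)) := by omega
        have hc2 : ¬ (((x.1 : ℕ) = o.1 ∨ (x.1 : ℕ) = o.1 + 1) ∧
           ((x.2 : ℕ) = o.2 ∨ (x.2 : ℕ) + 1 = o.2)) := by omega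
        rw [if_neg hc1, hval, if_neg hc2, mul_zero]
  · by_cases hcase2 : (x.1 : ℕ) = o.1
    · have hgauge : (gs n p0.1 o.1 : ℤ) * (gs n p0.1 x.1 : ℤ) = 1 := by
        rw [hcase2, ← Units.val_mul, Int.units_mul_self, Units.val_one]
      rw [hgauge, one_mul, if_neg hcase, if_neg (by omega)]
      unfold Kz
      rw [if_neg hcase, if_pos hcase2]
      split_ifs <;> first | omega | norm_num
    · have hval : Kz n o x = 0 := by unfold Kz; rw [if_neg hcase, if_neg hcase2]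
      have hc1 : ¬ (((o.1 : ℕ) = q0.1 ∧ (o.2 : ℕ) = p0.2 + 1) ∧
         ((x.1 : ℕ) = p0.1 ∧ (x.2 : ℕ) = p0.2 + 1)) := by omega
      have hc2 : ¬ (((x.1 : ℕ) = o.1 ∨ (x.1 : ℕ) = o.1 + 1) ∧
         ((x.2 : ℕ) = o.2 ∨ (x.2 : ℕ) + 1 = o.2)) := by omega
      rw [if_neg hc1, hval, if_neg hc2, mul_zero]

end Pool.Agent.TH391.Az
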