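import Pool.Agent.TH391.Az.Count

namespace Pool.Agent.TH391.Az

open Finset Polynomial Pool.Agent.Helper848 Pool.Agent.Helper848.AztecDet

theorem hh_natDegree (k L : ℕ) (hL : L ≤ k) : (hh k L).natDegree ≤ 2 * k := by
  rw [natDegree_le_iff_coeff_eq_zero]
  exact (hh_anti k L hL).2

theorem dvd_hh (k L a : ℕ) (ha : a ≤ 2 * (k - L)) : (1 + X) ^ a ∣ hh k L := by
  unfold hh
  refine Finset.dvd_sum fun l hl => ?_
  rw [Finset.mem_range] at hl
  unfold tm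
  exact Dvd.dvd.mul_left (Dvd.dvd.mul_right (pow_dvd_pow _ (by omega)) _) _

theorem dvd_ww (k L a : ℕ) (ha : a ≤ 2 * (L + 1)) : (1 - X) ^ a ∣ ww k L := by
  unfold ww
  refine Finset.dvd_sum fun l hl => ?_
  rw [Finset.mem_Ico] at hl
  unfold tm
  exact Dvd.dvd.mul_left (Dvd.dvd.mul_left (pow_dvd_pow _ (by omega)) _) _

/-- the central constant -/
noncomputable def cc (k L : ℕ) : ℚ := (1 - (hh k L).coeff k / 4 ^ k) / 2

noncomputable def Ph (k L : ℕ) : ℚ[X] := C (1 / 4 ^ k) * ph k L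

theorem X_pow_eq (k L : ℕ) (hL : L ≤ k) :
    (X ^ k : ℚ[X]) = C (1 / 4 ^ k) * hh k L + C (1 / 4 ^ k) * ww k L := by
  rw [← mul_add, hh_add_ww k L hL, ← mul_assoc, ← C_mul]
  have : (1 / 4 ^ k * 4 ^ k : ℚ) = 1 := by
    rw [one_div, inv_mul_cancel₀ (by positivity)]
  rw [this, C_1, one_mul]

theorem Ph_mul (k L : ℕ) (hL : L ≤ k) : (1 - X) * Ph k L = X ^ k - C (1 / 4 ^ k) * hh k L := by
  rw [X_pow_eq k L hL]
  unfold Ph
  rw [← ph_mul]
  ring

theorem Ph_vals (k L : ℕ) (hk : 1 ≤ k) (hL : L ≤ k) :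
    (Ph k L).coeff k = cc k L ∧ (Ph k L).coeff (k - 1) = - cc k L ∧
      (X * Ph k L).coeff (k - 1) = (hh k L).coeff (k - 1) / 4 ^ k - cc k L := by
  obtain ⟨K, rfl⟩ : ∃ K, k = K + 1 := ⟨k - 1, by omega⟩
  have h1 := congrArg (fun p => p.coeff (K + 1)) (Ph_mul (K + 1) L hL)
  have h2 := congrArg (fun p => p.coeff K) (Ph_mul (K + 1) L hL)
  have h3 : (Ph (K + 1) L).coeff (K + 1) = -1 * (Ph (K + 1) L).coeff K :=
    ((ph_anti (K + 1) L).smul _).1 _ _ (by omega)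
  simp only [sub_mul, one_mul, coeff_sub, coeff_X_mul, coeff_X_pow, coeff_C_mul, if_true] at h1
  simp only [sub_mul, one_mul, coeff_sub, coeff_X_pow, coeff_C_mul,
    show ¬ (K = K + 1) by omega, if_false] at h2
  rw [Nat.add_sub_cancel]
  unfold cc
  refine ⟨?_, ?_, ?_⟩
  · linear_combination h1 / 2 + h3 / 2
  · linear_combination h3 / 2 - h1 / 2
  · linear_combination h3 / 2 - h1 / 2 - h2

theorem cancel (p q : ℚ[X]) (h : (1 - X) * p = (1 - X) * q) : p = q := by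
  refine mul_left_cancel₀ ?_ h
  intro hc
  have := congrArg (fun p => p.coeff 0) hc
  simp at this

/-- the case of even order -/
theorem countA (N k L : ℕ) (hN : N + 1 = 2 * k) (hL : L ≤ k) (hd1 : k ≤ 2 * (k - L))
    (hd2 : k + 1 ≤ 2 * (L + 1)) :
    (numTilings (reg (N + 1) (⟨k, by omega⟩, ⟨k - 1, by omega⟩) (⟨k - 1, by omega⟩, ⟨k + 1, by omega⟩)) : ℚ) =
      2 ^ ((N + 1) * (N + 2) / 2) *
      |((hh k L).coeff (k - 1) / 4 ^ k - cc k L +
        (-1) ^ (k + 1) * (hh k L).coeff (2 * k) / 4 ^ k * ((1 - X ^ 2) ^ k : ℚ[X]).coeff (k - 1)) *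
        (1 - 2 * cc k L) + 2 * ((- cc k L) * (- cc k L +
        (-1) ^ (k + 1) * (hh k L).coeff (2 * k) / 4 ^ k * ((1 - X ^ 2) ^ k : ℚ[X]).coeff k))| := by
  have hk : 1 ≤ k := by omega
  set γ : ℚ := (-1) ^ (k + 1) * (hh k L).coeff (2 * k) / 4 ^ k with hγ
  -- first column
  obtain ⟨H2, p2, hp2, hv2, hs2⟩ := exists_col (N + 1) (k - 1) k (by omega) (by omega)
    (C (1 / 4 ^ k) * hh k L) ((natDegree_C_mul_le _ _).trans (by
      rw [hN]; exact hh_natDegree k L hL))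
    (Dvd.dvd.mul_left (dvd_hh k L _ (by omega)) _) (by
      rw [← Ph_mul k L hL]
      unfold Ph
      rw [mul_left_comm, ph_mul]
      exact Dvd.dvd.mul_left (dvd_ww k L _ (by omega)) _)
  have hp2' : p2 = Ph k L := by
    apply cancel
    rw [hp2, Ph_mul k L hL]
  -- second column
  obtain ⟨H1, p1, hp1, hv1, hs1⟩ := exists_col (N + 1) (k - 1) (k + 1) (by omega) (by omega)
    (X * (C (1 / 4 ^ k) * hh k L) - C γ * ((1 + X) ^ k * (1 - X) ^ (k + 1))) (by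
      rw [natDegree_le_iff_coeff_eq_zero, hN]
      intro M hM
      obtain ⟨M', rfl⟩ : ∃ M', M = M' + 1 := ⟨M - 1, by omega⟩
      rw [coeff_sub, coeff_X_mul, coeff_C_mul, coeff_C_mul]
      rcases eq_or_ne M' (2 * k) with h | h
      · have h2 := (anti_pp k (k + 1)).1 (M' + 1) 0 (by omega)
        rw [h2, h]
        have h3 : ((1 + X) ^ k * (1 - X) ^ (k + 1) : ℚ[X]).coeff 0 = 1 := by
          rw [coeff_zero_eq_eval_zero]; simp
        rw [h3, hγ]
        have h4 : (-1 : ℚ) ^ (k + 1) * (-1) ^ (k + 1) = 1 := by rw [← mul_pow]; norm_num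
        linear_combination (-(hh k L).coeff (2 * k) / 4 ^ k) * h4
      · rw [(hh_anti k L hL).2 M' (by omega), (anti_pp k (k + 1)).2 _ (by omega)]
        ring)
    (by
      refine dvd_sub ?_ ?_
      · exact Dvd.dvd.mul_left (Dvd.dvd.mul_left (dvd_hh k L _ (by omega)) _) _
      · exact Dvd.dvd.mul_left (Dvd.dvd.mul_right (pow_dvd_pow _ (by omega)) _) _)
    (by
      have e : (X : ℚ[X]) ^ (k + 1) - (X * (C (1 / 4 ^ k) * hh k L) -
          C γ * ((1 + X) ^ k * (1 - X) ^ (k + 1))) =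
          X * (C (1 / 4 ^ k) * ww k L) + C γ * ((1 + X) ^ k * (1 - X) ^ (k + 1)) := by
        rw [pow_succ, X_pow_eq k L hL]
        ring
      rw [e]
      refine dvd_add ?_ ?_
      · exact Dvd.dvd.mul_left (Dvd.dvd.mul_left (dvd_ww k L _ (by omega)) _) _
      · exact Dvd.dvd.mul_left (Dvd.dvd.mul_left (pow_dvd_pow _ (by omega)) _) _)
  have hp1' : p1 = X * Ph k L + C γ * (1 - X ^ 2) ^ k := by
    apply cancel
    rw [hp1, mul_add, mul_left_comm (1 - X : ℚ[X]) X, Ph_mul k L hL,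
      show (1 - X ^ 2 : ℚ[X]) = (1 + X) * (1 - X) by ring, mul_pow]
    ring
  obtain ⟨v1, v2, v3⟩ := Ph_vals k L hk hL
  have hmain := numTilings_reg N (⟨k, by omega⟩, ⟨k - 1, by omega⟩) (⟨k, by omega⟩, ⟨k, by omega⟩)
    (⟨k - 1, by omega⟩, ⟨k + 1, by omega⟩) (⟨k - 1, by omega⟩, ⟨k, by omega⟩)
    (by show k = k - 1 + 1; omega) (by show k + 1 = k - 1 + 2; omega)
    ⟨rfl, by show k = k - 1 + 1; omega⟩ ⟨rfl, by show k = k - 1 + 1; omega⟩
    H1 H2 hs1 hs2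
  rw [hmain]
  have a1 : H1 (⟨k, by omega⟩, ⟨k - 1, by omega⟩) = (hh k L).coeff (k - 1) / 4 ^ k - cc k L +
      γ * ((1 - X ^ 2) ^ k : ℚ[X]).coeff (k - 1) := by
    rw [hv1 _ (by simp only; omega), hp1', coeff_add, v3, coeff_C_mul]
  have a2 : H1 (⟨k, by omega⟩, ⟨k, by omega⟩) = - cc k L +
      γ * ((1 - X ^ 2) ^ k : ℚ[X]).coeff k := by
    rw [hv1 _ (by simp only; omega), hp1', coeff_add, coeff_C_mul]
    congr 1
    obtain ⟨K, rfl⟩ : ∃ K, k = K + 1 := ⟨k - 1, by omega⟩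
    rw [coeff_X_mul]
    exact v2
  have a3 : H2 (⟨k, by omega⟩, ⟨k - 1, by omega⟩) = - cc k L := by
    rw [hv2 _ (by simp only; omega), hp2', v2]
  have a4 : H2 (⟨k, by omega⟩, ⟨k, by omega⟩) = cc k L := by
    rw [hv2 _ (by simp only; omega), hp2', v1]
  rw [a1, a2, a3, a4]

/-- the case of odd order, `k` odd -/
theorem countB (N k L : ℕ) (hN : N + 1 = 2 * k + 1) (hk : 1 ≤ k) (hL : L ≤ k)
    (hd1 : k + 1 ≤ 2 * (k - L)) (hd2 : k + 1 ≤ 2 * (L + 1)) :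
    (numTilings (reg (N + 1) (⟨k + 1, by omega⟩, ⟨k - 1, by omega⟩) (⟨k, by omega⟩, ⟨k + 1, by omega⟩)) : ℚ) =
      2 ^ ((N + 1) * (N + 2) / 2) *
      |((hh k L).coeff (k - 1) / 4 ^ k - cc k L) *
        (1 - 2 * cc k L) + 2 * ((- cc k L) * (- cc k L))| := by
  -- first column
  obtain ⟨H2, p2, hp2, hv2, hs2⟩ := exists_col (N + 1) k k (by omega) (by omega)
    (C (1 / 4 ^ k) * hh k L) ((natDegree_C_mul_le _ _).trans ((hh_natDegree k L hL).trans (by omega)))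
    (Dvd.dvd.mul_left (dvd_hh k L _ (by omega)) _) (by
      rw [← Ph_mul k L hL]
      unfold Ph
      rw [mul_left_comm, ph_mul]
      exact Dvd.dvd.mul_left (dvd_ww k L _ (by omega)) _)
  have hp2' : p2 = Ph k L := by
    apply cancel
    rw [hp2, Ph_mul k L hL]
  -- second column
  obtain ⟨H1, p1, hp1, hv1, hs1⟩ := exists_col (N + 1) k (k + 1) (by omega) (by omega)
    (X * (C (1 / 4 ^ k) * hh k L)) (by
      refine natDegree_mul_le.trans ?_
      rw [natDegree_X]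
      have := (natDegree_C_mul_le (1 / 4 ^ k : ℚ) (hh k L)).trans (hh_natDegree k L hL)
      omega)
    (Dvd.dvd.mul_left (Dvd.dvd.mul_left (dvd_hh k L _ (by omega)) _) _)
    (by
      have e : (X : ℚ[X]) ^ (k + 1) - (X * (C (1 / 4 ^ k) * hh k L)) =
          X * (C (1 / 4 ^ k) * ww k L) := by
        rw [pow_succ, X_pow_eq k L hL]
        ring
      rw [e]
      exact Dvd.dvd.mul_left (Dvd.dvd.mul_left (dvd_ww k L _ (by omega)) _) _)
  have hp1' : p1 = X * Ph k L := by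
    apply cancel
    rw [hp1, mul_left_comm (1 - X : ℚ[X]) X, Ph_mul k L hL]
    ring
  obtain ⟨v1, v2, v3⟩ := Ph_vals k L hk hL
  have hmain := numTilings_reg N (⟨k + 1, by omega⟩, ⟨k - 1, by omega⟩)
    (⟨k + 1, by omega⟩, ⟨k, by omega⟩)
    (⟨k, by omega⟩, ⟨k + 1, by omega⟩) (⟨k, by omega⟩, ⟨k, by omega⟩)
    rfl (by show k + 1 = k - 1 + 2; omega)
    ⟨rfl, by show k = k - 1 + 1; omega⟩ ⟨rfl, by show k = k - 1 + 1; omega⟩
    H1 H2 hs1 hs2
  rw [hmain]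
  have a1 : H1 (⟨k + 1, by omega⟩, ⟨k - 1, by omega⟩) =
      (hh k L).coeff (k - 1) / 4 ^ k - cc k L := by
    rw [hv1 _ rfl, hp1', v3]
  have a2 : H1 (⟨k + 1, by omega⟩, ⟨k, by omega⟩) = - cc k L := by
    rw [hv1 _ rfl, hp1']
    obtain ⟨K, rfl⟩ : ∃ K, k = K + 1 := ⟨k - 1, by omega⟩
    rw [coeff_X_mul]
    exact v2
  have a3 : H2 (⟨k + 1, by omega⟩, ⟨k - 1, by omega⟩) = - cc k L := by
    rw [hv2 _ rfl, hp2', v2]
  have a4 : H2 (⟨k + 1, by omega⟩, ⟨k, by omega⟩) = cc k L := by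
    rw [hv2 _ rfl, hp2', v1]
  rw [a1, a2, a3, a4]

theorem tm_eq (m : ℕ) : tm (2 * (m + 1)) (m + 1) =
    C ((-1) ^ (m + 1) * ((2 * (m + 1)).choose (m + 1) : ℚ)) * (1 - X ^ 2) ^ (2 * (m + 1)) := by
  unfold tm
  rw [show 2 * (m + 1) - (m + 1) = m + 1 by omega, ← mul_pow,
    show ((1 + X) * (1 - X) : ℚ[X]) = 1 - X ^ 2 by ring]

/-- the case of odd order, `k` even -/
theorem countC (N k m : ℕ) (hN : N + 1 = 2 * k + 1) (hk : k = 2 * (m + 1)) :
    (numTilings (reg (N + 1) (⟨k + 1, by omega⟩, ⟨k - 1, by omega⟩) (⟨k, by omega⟩, ⟨k + 1, by omega⟩)) : ℚ) =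
      2 ^ ((N + 1) * (N + 2) / 2) *
      |((hh k (m + 1)).coeff (k - 1) / 4 ^ k - cc k (m + 1)) *
        (1 - 2 * (cc k (m + 1) + (k.choose (m + 1) : ℚ) ^ 2 / 4 ^ k / 2)) +
        2 * ((- cc k (m + 1)) * (- cc k (m + 1) - (k.choose (m + 1) : ℚ) ^ 2 / 4 ^ k / 2))| := by
  have hL : m + 1 ≤ k := by omega
  have hk1 : 1 ≤ k := by omega
  have hsplit : hh k (m + 1) = hh k m + tm k (m + 1) := by
    unfold hh; rw [Finset.sum_range_succ]
  have htm : tm k (m + 1) =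
      C ((-1) ^ (m + 1) * (k.choose (m + 1) : ℚ)) * (1 - X ^ 2) ^ k := by
    rw [hk]; exact tm_eq m
  have hc2 : (2 : ℚ[X]) * C (1 / 2) = 1 := by
    rw [show (2 : ℚ[X]) = C 2 from rfl, ← C_mul]
    norm_num
  have hXk := X_pow_eq k (m + 1) hL
  rw [hsplit] at hXk
  have htmdeg : (tm k (m + 1)).natDegree ≤ 2 * k := by
    unfold tm
    refine (natDegree_C_mul_le _ _).trans ((natDegree_pp _ _).trans ?_)
    omega
  have hdvdp : (1 + X : ℚ[X]) ^ (k + 1) ∣ (1 + X) * tm k (m + 1) := by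
    unfold tm
    rw [pow_succ', mul_left_comm]
    refine Dvd.dvd.mul_left (mul_dvd_mul_left _ (Dvd.dvd.mul_right (pow_dvd_pow _ (by omega)) _)) _
  have hdvdm : (1 - X : ℚ[X]) ^ (k + 1) ∣ (1 - X) * tm k (m + 1) := by
    unfold tm
    rw [pow_succ', mul_left_comm]
    refine Dvd.dvd.mul_left (mul_dvd_mul_left _ (Dvd.dvd.mul_left (pow_dvd_pow _ (by omega)) _)) _
  -- first column
  obtain ⟨H2, p2, hp2, hv2, hs2⟩ := exists_col (N + 1) k k (by omega) (by omega)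
    (C (1 / 4 ^ k) * (hh k m + C (1 / 2) * ((1 + X) * tm k (m + 1))))
    (by
      refine (natDegree_C_mul_le _ _).trans ((natDegree_add_le _ _).trans (max_le ?_ ?_))
      · exact (hh_natDegree k m (by omega)).trans (by omega)
      · refine (natDegree_C_mul_le _ _).trans (natDegree_mul_le.trans ?_)
        have := natDegree_one_add_pow 1
        rw [pow_one] at this
        omega)
    (Dvd.dvd.mul_left (dvd_add (dvd_hh k m _ (by omega)) (Dvd.dvd.mul_left hdvdp _)) _)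
    (by
      have e : (X : ℚ[X]) ^ k - C (1 / 4 ^ k) * (hh k m + C (1 / 2) * ((1 + X) * tm k (m + 1))) =
          C (1 / 4 ^ k) * (ww k (m + 1) + C (1 / 2) * ((1 - X) * tm k (m + 1))) := by
        rw [hXk]
        linear_combination (-(C (1 / 4 ^ k) * tm k (m + 1)) : ℚ[X]) * hc2
      rw [e, show N + 1 - k = k + 1 by omega]
      exact Dvd.dvd.mul_left (dvd_add (dvd_ww k (m + 1) _ (by omega)) (Dvd.dvd.mul_left hdvdm _)) _)
  have hp2' : p2 = Ph k (m + 1) + C (1 / 2) * (C (1 / 4 ^ k) * tm k (m + 1)) := by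
    apply cancel
    rw [hp2, mul_add (1 - X : ℚ[X]), Ph_mul k (m + 1) hL, hsplit]
    linear_combination (-(C (1 / 4 ^ k) * tm k (m + 1)) : ℚ[X]) * hc2
  -- second column
  obtain ⟨H1, p1, hp1, hv1, hs1⟩ := exists_col (N + 1) k (k + 1) (by omega) (by omega)
    (C (1 / 4 ^ k) * (X * hh k m + C (1 / 2) * ((1 + X) * tm k (m + 1))))
    (by
      refine (natDegree_C_mul_le _ _).trans ((natDegree_add_le _ _).trans (max_le ?_ ?_))
      · refine natDegree_mul_le.trans ?_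
        rw [natDegree_X]
        have := hh_natDegree k m (by omega)
        omega
      · refine (natDegree_C_mul_le _ _).trans (natDegree_mul_le.trans ?_)
        have := natDegree_one_add_pow 1
        rw [pow_one] at this
        omega)
    (Dvd.dvd.mul_left (dvd_add (Dvd.dvd.mul_left (dvd_hh k m _ (by omega)) _)
      (Dvd.dvd.mul_left hdvdp _)) _)
    (by
      have e : (X : ℚ[X]) ^ (k + 1) -
          C (1 / 4 ^ k) * (X * hh k m + C (1 / 2) * ((1 + X) * tm k (m + 1))) =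
          C (1 / 4 ^ k) * (X * ww k (m + 1) - C (1 / 2) * ((1 - X) * tm k (m + 1))) := by
        rw [pow_succ, hXk]
        linear_combination (-(X * C (1 / 4 ^ k) * tm k (m + 1)) : ℚ[X]) * hc2
      rw [e, show N + 1 - k = k + 1 by omega]
      exact Dvd.dvd.mul_left (dvd_sub (Dvd.dvd.mul_left (dvd_ww k (m + 1) _ (by omega)) _)
        (Dvd.dvd.mul_left hdvdm _)) _)
  have hp1' : p1 = X * Ph k (m + 1) - C (1 / 2) * (C (1 / 4 ^ k) * tm k (m + 1)) := by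
    apply cancel
    rw [hp1, mul_sub (1 - X : ℚ[X]), mul_left_comm (1 - X : ℚ[X]) X, Ph_mul k (m + 1) hL, hsplit]
    linear_combination (-(X * C (1 / 4 ^ k) * tm k (m + 1)) : ℚ[X]) * hc2
  obtain ⟨v1, v2, v3⟩ := Ph_vals k (m + 1) hk1 hL
  have hmain := numTilings_reg N (⟨k + 1, by omega⟩, ⟨k - 1, by omega⟩)
    (⟨k + 1, by omega⟩, ⟨k, by omega⟩)
    (⟨k, by omega⟩, ⟨k + 1, by omega⟩) (⟨k, by omega⟩, ⟨k, by omega⟩)
    rfl (by show k + 1 = k - 1 + 2; omega)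
    ⟨rfl, by show k = k - 1 + 1; omega⟩ ⟨rfl, by show k = k - 1 + 1; omega⟩
    H1 H2 hs1 hs2
  rw [hmain]
  have t1 : (tm k (m + 1)).coeff k = (k.choose (m + 1) : ℚ) ^ 2 := by
    have := tm_mid (m + 1)
    rw [← hk] at this
    exact this
  have t2 : (tm k (m + 1)).coeff (k - 1) = 0 := by
    rw [htm, coeff_C_mul, show k - 1 = 2 * m + 1 by omega, (coeff_sq _).2, mul_zero]
  have a1 : H1 (⟨k + 1, by omega⟩, ⟨k - 1, by omega⟩) =
      (hh k (m + 1)).coeff (k - 1) / 4 ^ k - cc k (m + 1) := by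
    rw [hv1 _ rfl, hp1', coeff_sub, v3, coeff_C_mul, coeff_C_mul]
    show _ - 1 / 2 * (1 / 4 ^ k * (tm k (m + 1)).coeff (k - 1)) = _
    rw [t2]
    ring
  have a2 : H1 (⟨k + 1, by omega⟩, ⟨k, by omega⟩) = - cc k (m + 1) -
      (k.choose (m + 1) : ℚ) ^ 2 / 4 ^ k / 2 := by
    rw [hv1 _ rfl, hp1', coeff_sub, coeff_C_mul, coeff_C_mul]
    show (X * Ph k (m + 1)).coeff k - 1 / 2 * (1 / 4 ^ k * (tm k (m + 1)).coeff k) = _
    have : (X * Ph k (m + 1)).coeff k = - cc k (m + 1) := by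
      obtain ⟨K, hK⟩ : ∃ K, k = K + 1 := ⟨k - 1, by omega⟩
      have h2 := v2
      rw [show k - 1 = K by omega] at h2
      rw [hK, coeff_X_mul, ← hK]
      exact h2
    rw [this, t1]
    ring
  have a3 : H2 (⟨k + 1, by omega⟩, ⟨k - 1, by omega⟩) = - cc k (m + 1) := by
    rw [hv2 _ rfl, hp2', coeff_add, v2, coeff_C_mul, coeff_C_mul]
    show _ + 1 / 2 * (1 / 4 ^ k * (tm k (m + 1)).coeff (k - 1)) = _
    rw [t2]
    ring
  have a4 : H2 (⟨k + 1, by omega⟩, ⟨k, by omega⟩) = cc k (m + 1) +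
      (k.choose (m + 1) : ℚ) ^ 2 / 4 ^ k / 2 := by
    rw [hv2 _ rfl, hp2', coeff_add, v1, coeff_C_mul, coeff_C_mul]
    show _ + 1 / 2 * (1 / 4 ^ k * (tm k (m + 1)).coeff k) = _
    rw [t1]
    ring
  rw [a1, a2, a3, a4]

end Pool.Agent.TH391.Az
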